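import Mathlib

set_option autoImplicit false

namespace Pool.Agent.Helper886.Tower

/-- The group of pairs `(l, X)`, `l ∈ ℤ²`, `X ∈ M₂(R)` with law
`(l, X) (l', X') = (l + l', X + X' - 3 l ⊗ ω(l', ·))`. -/
@[ext]
structure UU (R : Type) : Type where
  l1 : ℤ
  l2 : ℤ
  x11 : R
  x12 : R
  x21 : R
  x22 : R

namespace UU

variable {R : Type} [CommRing R]

instance : Mul (UU R) where
  mul u v := ⟨u.l1 + v.l1, u.l2 + v.l2, u.x11 + v.x11 + 3 * u.l1 * v.l2,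
    u.x12 + v.x12 - 3 * u.l1 * v.l1, u.x21 + v.x21 + 3 * u.l2 * v.l2,
    u.x22 + v.x22 - 3 * u.l2 * v.l1⟩

instance : One (UU R) where
  one := ⟨0, 0, 0, 0, 0, 0⟩

instance : Inv (UU R) where
  inv u := ⟨-u.l1, -u.l2, -u.x11 + 3 * u.l1 * u.l2, -u.x12 - 3 * u.l1 * u.l1,
    -u.x21 + 3 * u.l2 * u.l2, -u.x22 - 3 * u.l2 * u.l1⟩

theorem mul_def (u v : UU R) : u * v = ⟨u.l1 + v.l1, u.l2 + v.l2, u.x11 + v.x11 + 3 * u.l1 * v.l2,
    u.x12 + v.x12 - 3 * u.l1 * v.l1, u.x21 + v.x21 + 3 * u.l2 * v.l2,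
    u.x22 + v.x22 - 3 * u.l2 * v.l1⟩ := rfl
@[simp] theorem mul_l1 (u v : UU R) : (u * v).l1 = u.l1 + v.l1 := rfl
@[simp] theorem mul_l2 (u v : UU R) : (u * v).l2 = u.l2 + v.l2 := rfl
@[simp] theorem mul_x11 (u v : UU R) : (u * v).x11 = u.x11 + v.x11 + 3 * u.l1 * v.l2 := rfl
@[simp] theorem mul_x12 (u v : UU R) : (u * v).x12 = u.x12 + v.x12 - 3 * u.l1 * v.l1 := rfl
@[simp] theorem mul_x21 (u v : UU R) : (u * v).x21 = u.x21 + v.x21 + 3 * u.l2 * v.l2 := rfl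
@[simp] theorem mul_x22 (u v : UU R) : (u * v).x22 = u.x22 + v.x22 - 3 * u.l2 * v.l1 := rfl
@[simp] theorem one_l1 : (1 : UU R).l1 = 0 := rfl
@[simp] theorem one_l2 : (1 : UU R).l2 = 0 := rfl
@[simp] theorem one_x11 : (1 : UU R).x11 = 0 := rfl
@[simp] theorem one_x12 : (1 : UU R).x12 = 0 := rfl
@[simp] theorem one_x21 : (1 : UU R).x21 = 0 := rfl
@[simp] theorem one_x22 : (1 : UU R).x22 = 0 := rfl
@[simp] theorem inv_l1 (u : UU R) : (u⁻¹).l1 = -u.l1 := rfl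
@[simp] theorem inv_l2 (u : UU R) : (u⁻¹).l2 = -u.l2 := rfl
@[simp] theorem inv_x11 (u : UU R) : (u⁻¹).x11 = -u.x11 + 3 * u.l1 * u.l2 := rfl
@[simp] theorem inv_x12 (u : UU R) : (u⁻¹).x12 = -u.x12 - 3 * u.l1 * u.l1 := rfl
@[simp] theorem inv_x21 (u : UU R) : (u⁻¹).x21 = -u.x21 + 3 * u.l2 * u.l2 := rfl
@[simp] theorem inv_x22 (u : UU R) : (u⁻¹).x22 = -u.x22 - 3 * u.l2 * u.l1 := rfl

instance : Group (UU R) := Group.ofLeftAxioms
  (by intro u v w; ext <;> simp <;> ring)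
  (by intro u; ext <;> simp)
  (by intro u; ext <;> simp <;> ring)

/-- action of a `2 × 2` matrix `[[a, b], [c, d]]`: `(l, X) ↦ (g l, g X adj g)`. -/
def act (g : Matrix (Fin 2) (Fin 2) ℤ) (u : UU R) : UU R :=
  ⟨g 0 0 * u.l1 + g 0 1 * u.l2, g 1 0 * u.l1 + g 1 1 * u.l2,
   ((g 0 0 : ℤ) * u.x11 + (g 0 1 : ℤ) * u.x21) * (g 1 1 : ℤ)
     - ((g 0 0 : ℤ) * u.x12 + (g 0 1 : ℤ) * u.x22) * (g 1 0 : ℤ),
   - ((g 0 0 : ℤ) * u.x11 + (g 0 1 : ℤ) * u.x21) * (g 0 1 : ℤ)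
     + ((g 0 0 : ℤ) * u.x12 + (g 0 1 : ℤ) * u.x22) * (g 0 0 : ℤ),
   ((g 1 0 : ℤ) * u.x11 + (g 1 1 : ℤ) * u.x21) * (g 1 1 : ℤ)
     - ((g 1 0 : ℤ) * u.x12 + (g 1 1 : ℤ) * u.x22) * (g 1 0 : ℤ),
   - ((g 1 0 : ℤ) * u.x11 + (g 1 1 : ℤ) * u.x21) * (g 0 1 : ℤ)
     + ((g 1 0 : ℤ) * u.x12 + (g 1 1 : ℤ) * u.x22) * (g 0 0 : ℤ)⟩

theorem act_one (u : UU R) : act 1 u = u := by
  ext <;> simp [act]

theorem act_mul (g h : Matrix (Fin 2) (Fin 2) ℤ) (u : UU R) :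
    act (g * h) u = act g (act h u) := by
  ext <;> simp [act, Matrix.mul_apply, Fin.sum_univ_two] <;> ring

theorem act_map_mul (g : Matrix (Fin 2) (Fin 2) ℤ) (u v : UU R) :
    act g (u * v) = act g u * act g v := by
  ext <;> simp [act] <;> ring

end UU

/-- `GL₂(ℤ)` -/
abbrev GL2 : Type := Matrix.GeneralLinearGroup (Fin 2) ℤ

/-- The action of `GL₂(ℤ)` on `UU R` by automorphisms. -/
def actHom (R : Type) [CommRing R] : GL2 →* MulAut (UU R) where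
  toFun g :=
    { toFun := UU.act (g : Matrix (Fin 2) (Fin 2) ℤ)
      invFun := UU.act ((g⁻¹ : GL2) : Matrix (Fin 2) (Fin 2) ℤ)
      left_inv := by
        intro u
        rw [← UU.act_mul, ← Units.val_mul, inv_mul_cancel, Units.val_one, UU.act_one]
      right_inv := by
        intro u
        rw [← UU.act_mul, ← Units.val_mul, mul_inv_cancel, Units.val_one, UU.act_one]
      map_mul' := UU.act_map_mul _ }
  map_one' := by
    ext u : 1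
    exact UU.act_one u
  map_mul' g h := by
    ext u : 1
    exact UU.act_mul _ _ u

@[simp] theorem actHom_apply {R : Type} [CommRing R] (g : GL2) (u : UU R) :
    actHom R g u = UU.act (g : Matrix (Fin 2) (Fin 2) ℤ) u := rfl

/-- `UU R ⋊ GL₂(ℤ)` -/
abbrev BB (R : Type) [CommRing R] : Type := UU R ⋊[actHom R] GL2

/-- extension of scalars -/
def UU.cast (u : UU ℤ) : UU ℚ := ⟨u.l1, u.l2, u.x11, u.x12, u.x21, u.x22⟩

/-- extension of scalars as a group homomorphism -/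
def castU : UU ℤ →* UU ℚ where
  toFun := UU.cast
  map_one' := by ext <;> simp [UU.cast]
  map_mul' u v := by ext <;> simp [UU.cast]

@[simp] theorem castU_l1 (u : UU ℤ) : (castU u).l1 = u.l1 := rfl
@[simp] theorem castU_l2 (u : UU ℤ) : (castU u).l2 = u.l2 := rfl
@[simp] theorem castU_x11 (u : UU ℤ) : (castU u).x11 = u.x11 := rfl
@[simp] theorem castU_x12 (u : UU ℤ) : (castU u).x12 = u.x12 := rfl
@[simp] theorem castU_x21 (u : UU ℤ) : (castU u).x21 = u.x21 := rfl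
@[simp] theorem castU_x22 (u : UU ℤ) : (castU u).x22 = u.x22 := rfl

/-- The inclusion `UU ℤ ⋊ GL₂(ℤ) → UU ℚ ⋊ GL₂(ℤ)`. -/
def castB : BB ℤ →* BB ℚ :=
  SemidirectProduct.map castU (MonoidHom.id GL2) (by
    intro g
    ext u <;> simp [UU.act])

@[simp] theorem castB_left (b : BB ℤ) : (castB b).left = castU b.left := rfl
@[simp] theorem castB_right (b : BB ℤ) : (castB b).right = b.right := rfl

end Pool.Agent.Helper886.Tower
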