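import Mathlib
import Pool.Agent.Helper886.Tower.Groups

set_option autoImplicit false

namespace Pool.Agent.Helper886.Tower

open Matrix

/-- `S` in `GL₂(ℤ)` -/
def gS : GL2 := ⟨!![0, -1; 1, 0], !![0, 1; -1, 0],
  by ext i j; fin_cases i <;> fin_cases j <;> simp,
  by ext i j; fin_cases i <;> fin_cases j <;> simp⟩

/-- `T` in `GL₂(ℤ)` -/
def gT : GL2 := ⟨!![1, 1; 0, 1], !![1, -1; 0, 1],
  by ext i j; fin_cases i <;> fin_cases j <;> simp,
  by ext i j; fin_cases i <;> fin_cases j <;> simp⟩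

/-- `ε = diag (1, -1)` -/
def gE : GL2 := ⟨!![1, 0; 0, -1], !![1, 0; 0, -1],
  by ext i j; fin_cases i <;> fin_cases j <;> simp,
  by ext i j; fin_cases i <;> fin_cases j <;> simp⟩

/-- `-1` -/
def gM : GL2 := ⟨!![-1, 0; 0, -1], !![-1, 0; 0, -1],
  by ext i j; fin_cases i <;> fin_cases j <;> simp,
  by ext i j; fin_cases i <;> fin_cases j <;> simp⟩

theorem coe_gS : (gS : Matrix (Fin 2) (Fin 2) ℤ) = !![0, -1; 1, 0] := rfl
theorem coe_gT : (gT : Matrix (Fin 2) (Fin 2) ℤ) = !![1, 1; 0, 1] := rfl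
theorem coe_gE : (gE : Matrix (Fin 2) (Fin 2) ℤ) = !![1, 0; 0, -1] := rfl
theorem coe_gM : (gM : Matrix (Fin 2) (Fin 2) ℤ) = !![-1, 0; 0, -1] := rfl

theorem gl_ext {g h : GL2} (h00 : (g : Matrix (Fin 2) (Fin 2) ℤ) 0 0 = (h : Matrix (Fin 2) (Fin 2) ℤ) 0 0)
    (h01 : (g : Matrix (Fin 2) (Fin 2) ℤ) 0 1 = (h : Matrix (Fin 2) (Fin 2) ℤ) 0 1)
    (h10 : (g : Matrix (Fin 2) (Fin 2) ℤ) 1 0 = (h : Matrix (Fin 2) (Fin 2) ℤ) 1 0)
    (h11 : (g : Matrix (Fin 2) (Fin 2) ℤ) 1 1 = (h : Matrix (Fin 2) (Fin 2) ℤ) 1 1) : g = h := by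
  apply Units.ext
  ext i j
  fin_cases i <;> fin_cases j <;> assumption

/-- A subgroup of `GL₂(ℤ)` containing `S`, `T` and `ε` is everything. -/
theorem gl_gen (K : Subgroup GL2) (hS : gS ∈ K) (hT : gT ∈ K) (hE : gE ∈ K) (g : GL2) : g ∈ K := by
  have h1 : ∀ s : SpecialLinearGroup (Fin 2) ℤ, SpecialLinearGroup.toGL s ∈ K := by
    intro s
    have h2 : (Subgroup.closure {ModularGroup.S, ModularGroup.T}) ≤
        K.comap (SpecialLinearGroup.toGL (n := Fin 2) (R := ℤ)) := by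
      rw [Subgroup.closure_le]
      intro x hx
      rcases hx with rfl | hx
      · show SpecialLinearGroup.toGL ModularGroup.S ∈ K
        have : SpecialLinearGroup.toGL ModularGroup.S = gS := by
          apply Units.ext; exact ModularGroup.coe_S
        rw [this]; exact hS
      · rw [Set.mem_singleton_iff] at hx
        subst hx
        show SpecialLinearGroup.toGL ModularGroup.T ∈ K
        have : SpecialLinearGroup.toGL ModularGroup.T = gT := by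
          apply Units.ext; exact ModularGroup.coe_T
        rw [this]; exact hT
    rw [SpecialLinearGroup.SL2Z_generators] at h2
    exact h2 (Subgroup.mem_top s)
  have hdet : (g : Matrix (Fin 2) (Fin 2) ℤ).det = 1 ∨ (g : Matrix (Fin 2) (Fin 2) ℤ).det = -1 := by
    have : IsUnit (g : Matrix (Fin 2) (Fin 2) ℤ).det :=
      (Matrix.isUnit_iff_isUnit_det _).1 g.isUnit
    exact Int.isUnit_iff.1 this
  rcases hdet with h | h
  · have := h1 ⟨g, h⟩
    have e : SpecialLinearGroup.toGL ⟨(g : Matrix (Fin 2) (Fin 2) ℤ), h⟩ = g := by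
      apply Units.ext; rfl
    rwa [e] at this
  · have h3 : ((g * gE : GL2) : Matrix (Fin 2) (Fin 2) ℤ).det = 1 := by
      rw [Units.val_mul, Matrix.det_mul, h, coe_gE]
      simp [Matrix.det_fin_two]
    have := h1 ⟨(g * gE : GL2), h3⟩
    have e : SpecialLinearGroup.toGL ⟨((g * gE : GL2) : Matrix (Fin 2) (Fin 2) ℤ), h3⟩ = g * gE := by
      apply Units.ext; rfl
    rw [e] at this
    have h4 := K.mul_mem this (K.inv_mem hE)
    simpa using h4

theorem act_gS (u : UU ℚ) : actHom ℚ gS u = ⟨-u.l2, u.l1, u.x22, -u.x21, -u.x12, u.x11⟩ := by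
  rw [actHom_apply, coe_gS]
  ext <;> simp [UU.act]

theorem act_gT (u : UU ℚ) : actHom ℚ gT u =
    ⟨u.l1 + u.l2, u.l2, u.x11 + u.x21, -u.x11 - u.x21 + u.x12 + u.x22, u.x21, -u.x21 + u.x22⟩ := by
  rw [actHom_apply, coe_gT]
  ext <;> (simp [UU.act]; try ring)

theorem act_gE (u : UU ℚ) : actHom ℚ gE u = ⟨u.l1, -u.l2, -u.x11, u.x12, u.x21, -u.x22⟩ := by
  rw [actHom_apply, coe_gE]
  ext <;> simp [UU.act]

theorem act_gM (u : UU ℚ) : actHom ℚ gM u = ⟨-u.l1, -u.l2, u.x11, u.x12, u.x21, u.x22⟩ := by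
  rw [actHom_apply, coe_gM]
  ext <;> simp [UU.act]

theorem rel1 : gE * gE = 1 := by
  apply gl_ext <;> simp [coe_gE, Matrix.mul_apply, Fin.sum_univ_two]
theorem rel2 : gS * gS = gM := by
  apply gl_ext <;> simp [coe_gS, coe_gM, Matrix.mul_apply, Fin.sum_univ_two]
theorem rel3 : gT * (gE * gT) = gE := by
  apply gl_ext <;> simp [coe_gE, coe_gT, Matrix.mul_apply, Fin.sum_univ_two]
theorem rel4 : gS * (gE * gS) = gE := by
  apply gl_ext <;> simp [coe_gE, coe_gS, Matrix.mul_apply, Fin.sum_univ_two]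
theorem rel5 : gS * (gT * (gS * (gT * (gS * gT)))) = gM := by
  apply gl_ext <;> simp [coe_gM, coe_gS, coe_gT, Matrix.mul_apply, Fin.sum_univ_two]
theorem rel6 : gM * gE = gE * gM := by
  apply gl_ext <;> simp [coe_gM, coe_gE, Matrix.mul_apply, Fin.sum_univ_two]
theorem rel7 : gM * gT = gT * gM := by
  apply gl_ext <;> simp [coe_gM, coe_gT, Matrix.mul_apply, Fin.sum_univ_two]
theorem rel8 : gM * gS = gS * gM := by
  apply gl_ext <;> simp [coe_gM, coe_gS, Matrix.mul_apply, Fin.sum_univ_two]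

/-- `H¹(GL₂(ℤ), M₂(ℚ)) = 0` for the action `g • X = g X adj g`. -/
theorem coc (δ : GL2 → UU ℚ) (h1 : ∀ g, (δ g).l1 = 0) (h2 : ∀ g, (δ g).l2 = 0)
    (hδ : ∀ g h, δ (g * h) = δ g * actHom ℚ g (δ h)) :
    ∃ X : UU ℚ, X.l1 = 0 ∧ X.l2 = 0 ∧ ∀ g, δ g = X * (actHom ℚ g X)⁻¹ := by
  have hone : δ 1 = 1 := by
    have := hδ 1 1
    rw [mul_one, map_one, MulAut.one_apply] at this
    have h3 : δ 1 * 1 = δ 1 * δ 1 := by rw [mul_one]; exact this
    exact (mul_left_cancel h3).symm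
  have r1 : δ gE * actHom ℚ gE (δ gE) = 1 := by rw [← hδ, rel1, hone]
  have r2 : δ gS * actHom ℚ gS (δ gS) = δ gM := by rw [← hδ, rel2]
  have r3 : δ gT * actHom ℚ gT (δ gE * actHom ℚ gE (δ gT)) = δ gE := by rw [← hδ, ← hδ, rel3]
  have r4 : δ gS * actHom ℚ gS (δ gE * actHom ℚ gE (δ gS)) = δ gE := by rw [← hδ, ← hδ, rel4]
  have r5 : δ gS * actHom ℚ gS (δ gT * actHom ℚ gT (δ gS * actHom ℚ gS (δ gT * actHom ℚ gT
      (δ gS * actHom ℚ gS (δ gT))))) = δ gM := by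
    rw [← hδ, ← hδ, ← hδ, ← hδ, ← hδ, rel5]
  have r6 : δ gM * actHom ℚ gM (δ gE) = δ gE * actHom ℚ gE (δ gM) := by rw [← hδ, ← hδ, rel6]
  have r7 : δ gM * actHom ℚ gM (δ gT) = δ gT * actHom ℚ gT (δ gM) := by rw [← hδ, ← hδ, rel7]
  have r8 : δ gM * actHom ℚ gM (δ gS) = δ gS * actHom ℚ gS (δ gM) := by rw [← hδ, ← hδ, rel8]
  obtain ⟨a, ha⟩ : ∃ a, a = δ gS := ⟨_, rfl⟩
  obtain ⟨b, hb⟩ : ∃ b, b = δ gT := ⟨_, rfl⟩
  obtain ⟨c, hc⟩ : ∃ c, c = δ gE := ⟨_, rfl⟩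
  obtain ⟨m, hm⟩ : ∃ m, m = δ gM := ⟨_, rfl⟩
  have a1 := h1 gS
  have a2 := h2 gS
  have b1 := h1 gT
  have b2 := h2 gT
  have c1 := h1 gE
  have c2 := h2 gE
  have m1 := h1 gM
  have m2 := h2 gM
  rw [← ha] at a1 a2
  rw [← hb] at b1 b2
  rw [← hc] at c1 c2
  rw [← hm] at m1 m2
  rw [← hc] at r1
  rw [← ha, ← hm] at r2
  rw [← hb, ← hc] at r3
  rw [← ha, ← hc] at r4
  rw [← ha, ← hb, ← hm] at r5
  rw [← hc, ← hm] at r6
  rw [← hb, ← hm] at r7
  rw [← ha, ← hm] at r8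
  simp only [act_gS, act_gT, act_gE, act_gM, UU.ext_iff, UU.mul_l1, UU.mul_l2, UU.mul_x11,
    UU.mul_x12, UU.mul_x21, UU.mul_x22, UU.one_l1, UU.one_l2, UU.one_x11, UU.one_x12, UU.one_x21,
    UU.one_x22, a1, a2, b1, b2, c1, c2, m1, m2] at r1 r2 r3 r4 r5 r6 r7 r8
  norm_num at r1 r2 r3 r4 r5 r6 r7 r8
  obtain ⟨r1a, r1b⟩ := r1
  obtain ⟨r2a, r2b, r2c, r2d⟩ := r2
  obtain ⟨r3a, r3b, r3c, r3d⟩ := r3
  obtain ⟨r4a, r4b, r4c, r4d⟩ := r4
  obtain ⟨r5a, r5b, r5c, r5d⟩ := r5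
  let X : UU ℚ := ⟨0, 0, c.x11 / 2, a.x12 - b.x22, b.x22, c.x22 / 2⟩
  refine ⟨X, rfl, rfl, ?_⟩
  let K : Subgroup GL2 :=
    { carrier := {g | δ g = X * (actHom ℚ g X)⁻¹}
      mul_mem' := by
        intro g h hg hh
        simp only [Set.mem_ofPred_eq] at hg hh ⊢
        rw [hδ, hg, hh, map_mul, map_inv, map_mul, MulAut.mul_apply]
        group
      one_mem' := by
        simp only [Set.mem_ofPred_eq]
        rw [hone, map_one, MulAut.one_apply, mul_inv_cancel]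
      inv_mem' := by
        intro g hg
        simp only [Set.mem_ofPred_eq] at hg ⊢
        have h3 := hδ g⁻¹ g
        have h5 : actHom ℚ g⁻¹ (actHom ℚ g X) = X := by
          rw [← MulAut.mul_apply, ← map_mul, inv_mul_cancel, map_one, MulAut.one_apply]
        rw [inv_mul_cancel, hone, hg, map_mul (actHom ℚ g⁻¹), map_inv (actHom ℚ g⁻¹), h5] at h3
        have h4 : δ g⁻¹ = (actHom ℚ g⁻¹ X * X⁻¹)⁻¹ := eq_inv_of_mul_eq_one_left h3.symm
        rw [h4]; group }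
  have key : ∀ g, g ∈ K := by
    apply gl_gen
    · show δ gS = X * (actHom ℚ gS X)⁻¹
      rw [← ha, act_gS]
      ext
      · simp [a1, X]
      · simp [a2, X]
      · simp [X]; linarith
      · simp [X]
      · simp [X]; linarith
      · simp [X]; linarith
    · show δ gT = X * (actHom ℚ gT X)⁻¹
      rw [← hb, act_gT]
      ext
      · simp [b1, X]
      · simp [b2, X]
      · simp [X]; linarith
      · simp [X]; linarith
      · simp [X]; linarith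
      · simp [X]
    · show δ gE = X * (actHom ℚ gE X)⁻¹
      rw [← hc, act_gE]
      ext
      · simp [c1, X]
      · simp [c2, X]
      · simp [X]
      · simp [X]; linarith
      · simp [X]; linarith
      · simp [X]
  exact key

end Pool.Agent.Helper886.Tower
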