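import Mathlib
import Pool.Agent.Helper886.Tower.Groups
import Pool.Agent.Helper886.Tower.Cocycle

set_option autoImplicit false

namespace Pool.Agent.Helper886.Tower

open SemidirectProduct

/-- A torsion-free nilpotent group of class 3 on `ℤ² × ℤ × ℤ²`, a lattice in the free nilpotent
group of class 3 and rank 2:
`(a, c, v) (b, d, w) = (a + b, c + d + ω(a, b), v + w + 3 (c b - d a) + ω(a, b) (b - a))`. -/
@[ext]
structure GG : Type where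
  a1 : ℤ
  a2 : ℤ
  c : ℤ
  v1 : ℤ
  v2 : ℤ

namespace GG

instance : Mul GG where
  mul X Y := ⟨X.a1 + Y.a1, X.a2 + Y.a2, X.c + Y.c + (X.a1 * Y.a2 - X.a2 * Y.a1),
    X.v1 + Y.v1 + 3 * (X.c * Y.a1 - Y.c * X.a1) + (X.a1 * Y.a2 - X.a2 * Y.a1) * (Y.a1 - X.a1),
    X.v2 + Y.v2 + 3 * (X.c * Y.a2 - Y.c * X.a2) + (X.a1 * Y.a2 - X.a2 * Y.a1) * (Y.a2 - X.a2)⟩

instance : One GG where
  one := ⟨0, 0, 0, 0, 0⟩

instance : Inv GG where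
  inv X := ⟨-X.a1, -X.a2, -X.c, -X.v1, -X.v2⟩

@[simp] theorem mul_a1 (X Y : GG) : (X * Y).a1 = X.a1 + Y.a1 := rfl
@[simp] theorem mul_a2 (X Y : GG) : (X * Y).a2 = X.a2 + Y.a2 := rfl
@[simp] theorem mul_c (X Y : GG) : (X * Y).c = X.c + Y.c + (X.a1 * Y.a2 - X.a2 * Y.a1) := rfl
@[simp] theorem mul_v1 (X Y : GG) : (X * Y).v1 = X.v1 + Y.v1 + 3 * (X.c * Y.a1 - Y.c * X.a1)
    + (X.a1 * Y.a2 - X.a2 * Y.a1) * (Y.a1 - X.a1) := rfl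
@[simp] theorem mul_v2 (X Y : GG) : (X * Y).v2 = X.v2 + Y.v2 + 3 * (X.c * Y.a2 - Y.c * X.a2)
    + (X.a1 * Y.a2 - X.a2 * Y.a1) * (Y.a2 - X.a2) := rfl
@[simp] theorem one_a1 : (1 : GG).a1 = 0 := rfl
@[simp] theorem one_a2 : (1 : GG).a2 = 0 := rfl
@[simp] theorem one_c : (1 : GG).c = 0 := rfl
@[simp] theorem one_v1 : (1 : GG).v1 = 0 := rfl
@[simp] theorem one_v2 : (1 : GG).v2 = 0 := rfl
@[simp] theorem inv_a1 (X : GG) : (X⁻¹).a1 = -X.a1 := rfl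
@[simp] theorem inv_a2 (X : GG) : (X⁻¹).a2 = -X.a2 := rfl
@[simp] theorem inv_c (X : GG) : (X⁻¹).c = -X.c := rfl
@[simp] theorem inv_v1 (X : GG) : (X⁻¹).v1 = -X.v1 := rfl
@[simp] theorem inv_v2 (X : GG) : (X⁻¹).v2 = -X.v2 := rfl

instance : Group GG := Group.ofLeftAxioms
  (by intro X Y Z; ext <;> simp <;> ring)
  (by intro X; ext <;> simp)
  (by
    intro X
    ext
    · simp
    · simp
    · simp only [mul_c, inv_a1, inv_a2, inv_c, one_c]; ring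
    · simp only [mul_v1, inv_a1, inv_a2, inv_c, inv_v1, one_v1]; ring
    · simp only [mul_v2, inv_a1, inv_a2, inv_c, inv_v2, one_v2]; ring)

/-- one parameter subgroups -/
theorem zpow_E1 (k : ℤ) : (⟨1, 0, 0, 0, 0⟩ : GG) ^ k = ⟨k, 0, 0, 0, 0⟩ := by
  let f : Multiplicative ℤ →* GG :=
    { toFun := fun k => ⟨k.toAdd, 0, 0, 0, 0⟩
      map_one' := by ext <;> simp
      map_mul' := by intro a b; ext <;> simp }
  have h1 : (⟨1, 0, 0, 0, 0⟩ : GG) = f (Multiplicative.ofAdd 1) := rfl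
  have h2 : (Multiplicative.ofAdd (1 : ℤ)) ^ k = Multiplicative.ofAdd k := by
    rw [← ofAdd_zsmul]; simp
  rw [h1, ← map_zpow, h2]; rfl

theorem zpow_E2 (k : ℤ) : (⟨0, 1, 0, 0, 0⟩ : GG) ^ k = ⟨0, k, 0, 0, 0⟩ := by
  let f : Multiplicative ℤ →* GG :=
    { toFun := fun k => ⟨0, k.toAdd, 0, 0, 0⟩
      map_one' := by ext <;> simp
      map_mul' := by intro a b; ext <;> simp }
  have h1 : (⟨0, 1, 0, 0, 0⟩ : GG) = f (Multiplicative.ofAdd 1) := rfl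
  have h2 : (Multiplicative.ofAdd (1 : ℤ)) ^ k = Multiplicative.ofAdd k := by
    rw [← ofAdd_zsmul]; simp
  rw [h1, ← map_zpow, h2]; rfl

theorem zpow_Z2 (c v1 v2 k : ℤ) : (⟨0, 0, c, v1, v2⟩ : GG) ^ k = ⟨0, 0, k * c, k * v1, k * v2⟩ := by
  let f : Multiplicative ℤ →* GG :=
    { toFun := fun k => ⟨0, 0, k.toAdd * c, k.toAdd * v1, k.toAdd * v2⟩
      map_one' := by ext <;> simp
      map_mul' := by intro a b; ext <;> simp <;> ring }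
  have h1 : (⟨0, 0, c, v1, v2⟩ : GG) = f (Multiplicative.ofAdd 1) := by ext <;> simp [f]
  have h2 : (Multiplicative.ofAdd (1 : ℤ)) ^ k = Multiplicative.ofAdd k := by
    rw [← ofAdd_zsmul]; simp
  rw [h1, ← map_zpow, h2]; rfl

/-- normal form -/
theorem normal_form (X : GG) : X = (⟨1, 0, 0, 0, 0⟩ : GG) ^ X.a1 * (⟨0, 1, 0, 0, 0⟩ : GG) ^ X.a2
    * (⟨0, 0, 1, 0, 0⟩ : GG) ^ (X.c - X.a1 * X.a2)
    * (⟨0, 0, 0, 1, 0⟩ : GG) ^ (X.v1 + X.a1 * X.a1 * X.a2 + 3 * (X.c - X.a1 * X.a2) * X.a1)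
    * (⟨0, 0, 0, 0, 1⟩ : GG) ^ (X.v2 - X.a1 * X.a2 * X.a2 + 3 * (X.c - X.a1 * X.a2) * X.a2) := by
  rw [zpow_E1, zpow_E2, zpow_Z2, zpow_Z2, zpow_Z2]
  ext <;> simp <;> ring

theorem fg : Group.FG GG := by
  rw [Group.fg_iff]
  refine ⟨{⟨1, 0, 0, 0, 0⟩, ⟨0, 1, 0, 0, 0⟩, ⟨0, 0, 1, 0, 0⟩, ⟨0, 0, 0, 1, 0⟩, ⟨0, 0, 0, 0, 1⟩}, ?_,
    by simp⟩
  rw [eq_top_iff]
  intro X _
  rw [normal_form X]
  refine Subgroup.mul_mem _ (Subgroup.mul_mem _ (Subgroup.mul_mem _ (Subgroup.mul_mem _ ?_ ?_) ?_)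
    ?_) ?_ <;> refine Subgroup.zpow_mem _ (Subgroup.subset_closure ?_) _ <;> simp

theorem ext_hom {H : Type} [Group H] (f g : GG →* H)
    (h1 : f ⟨1, 0, 0, 0, 0⟩ = g ⟨1, 0, 0, 0, 0⟩) (h2 : f ⟨0, 1, 0, 0, 0⟩ = g ⟨0, 1, 0, 0, 0⟩)
    (h3 : f ⟨0, 0, 1, 0, 0⟩ = g ⟨0, 0, 1, 0, 0⟩) (h4 : f ⟨0, 0, 0, 1, 0⟩ = g ⟨0, 0, 0, 1, 0⟩)
    (h5 : f ⟨0, 0, 0, 0, 1⟩ = g ⟨0, 0, 0, 0, 1⟩) : f = g := by
  ext X
  rw [normal_form X]
  simp only [map_mul, map_zpow, h1, h2, h3, h4, h5]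

/-- first coordinate -/
def pa1 : GG →* Multiplicative ℤ where
  toFun X := Multiplicative.ofAdd X.a1
  map_one' := rfl
  map_mul' _ _ := rfl

/-- second coordinate -/
def pa2 : GG →* Multiplicative ℤ where
  toFun X := Multiplicative.ofAdd X.a2
  map_one' := rfl
  map_mul' _ _ := rfl

theorem torsion_free (X : GG) (n : ℕ) (hn : n ≠ 0) (h : X ^ n = 1) : X = 1 := by
  have hn' : (n : ℤ) ≠ 0 := by exact_mod_cast hn
  have h1 : X.a1 = 0 := by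
    have h2 := congrArg (fun Y => (pa1 Y).toAdd) h
    simp only [map_pow, toAdd_pow, map_one, toAdd_one, nsmul_eq_mul] at h2
    have h3 : (n : ℤ) * X.a1 = 0 := h2
    exact (mul_eq_zero.1 h3).resolve_left hn'
  have h2 : X.a2 = 0 := by
    have h2 := congrArg (fun Y => (pa2 Y).toAdd) h
    simp only [map_pow, toAdd_pow, map_one, toAdd_one, nsmul_eq_mul] at h2
    have h3 : (n : ℤ) * X.a2 = 0 := h2
    exact (mul_eq_zero.1 h3).resolve_left hn'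
  have h3 : X = ⟨0, 0, X.c, X.v1, X.v2⟩ := by
    ext
    · exact h1
    · exact h2
    · rfl
    · rfl
    · rfl
  rw [← zpow_natCast, h3, zpow_Z2] at h
  have e1 := congrArg GG.c h
  have e2 := congrArg GG.v1 h
  have e3 := congrArg GG.v2 h
  simp only [one_c, one_v1, one_v2] at e1 e2 e3
  rw [h3]
  ext
  · rfl
  · rfl
  · exact (mul_eq_zero.1 e1).resolve_left hn'
  · exact (mul_eq_zero.1 e2).resolve_left hn'
  · exact (mul_eq_zero.1 e3).resolve_left hn'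

/-- the centre -/
def Z1 : Subgroup GG where
  carrier := {X | X.a1 = 0 ∧ X.a2 = 0 ∧ X.c = 0}
  mul_mem' := by
    rintro X Y ⟨h1, h2, h3⟩ ⟨g1, g2, g3⟩
    refine ⟨?_, ?_, ?_⟩ <;> simp [h1, h2, h3, g1, g2, g3]
  one_mem' := ⟨rfl, rfl, rfl⟩
  inv_mem' := by
    rintro X ⟨h1, h2, h3⟩
    refine ⟨?_, ?_, ?_⟩ <;> simp [h1, h2, h3]

/-- the second centre -/
def Z2 : Subgroup GG where
  carrier := {X | X.a1 = 0 ∧ X.a2 = 0}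
  mul_mem' := by
    rintro X Y ⟨h1, h2⟩ ⟨g1, g2⟩
    refine ⟨?_, ?_⟩ <;> simp [h1, h2, g1, g2]
  one_mem' := ⟨rfl, rfl⟩
  inv_mem' := by
    rintro X ⟨h1, h2⟩
    refine ⟨?_, ?_⟩ <;> simp [h1, h2]

theorem cmm (X Y : GG) : X * Y * X⁻¹ * Y⁻¹ = ⟨0, 0, 2 * (X.a1 * Y.a2 - X.a2 * Y.a1),
    6 * (X.c * Y.a1 - Y.c * X.a1) - 6 * (X.a1 * Y.a2 - X.a2 * Y.a1) * (X.a1 + Y.a1),
    6 * (X.c * Y.a2 - Y.c * X.a2) - 6 * (X.a1 * Y.a2 - X.a2 * Y.a1) * (X.a2 + Y.a2)⟩ := by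
  ext <;> simp <;> ring

theorem nilpotent : Group.IsNilpotent GG := by
  rw [Subgroup.nilpotent_iff_finite_ascending_central_series]
  let H : ℕ → Subgroup GG := fun n => match n with
    | 0 => ⊥
    | 1 => Z1
    | 2 => Z2
    | _ + 3 => ⊤
  refine ⟨3, H, ⟨rfl, ?_⟩, rfl⟩
  intro X n hX Y
  match n with
  | 0 =>
    obtain ⟨h1, h2, h3⟩ : X.a1 = 0 ∧ X.a2 = 0 ∧ X.c = 0 := hX
    show X * Y * X⁻¹ * Y⁻¹ ∈ (⊥ : Subgroup GG)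
    rw [Subgroup.mem_bot, cmm]
    ext <;> simp [h1, h2, h3]
  | 1 =>
    obtain ⟨h1, h2⟩ : X.a1 = 0 ∧ X.a2 = 0 := hX
    show X * Y * X⁻¹ * Y⁻¹ ∈ Z1
    rw [cmm]
    exact ⟨rfl, rfl, by simp [h1, h2]⟩
  | 2 =>
    show X * Y * X⁻¹ * Y⁻¹ ∈ Z2
    rw [cmm]
    exact ⟨rfl, rfl⟩
  | n + 3 => exact Subgroup.mem_top _

end GG

end Pool.Agent.Helper886.Tower
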