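import Mathlib
import Pool.Agent.Helper886.Tower.GGroup

set_option autoImplicit false

namespace Pool.Agent.Helper886.Tower

open SemidirectProduct

/-- action of `UU ℤ` on `GG` -/
def actUG (u : UU ℤ) (X : GG) : GG :=
  ⟨X.a1, X.a2, X.c + (u.l1 * X.a2 - u.l2 * X.a1),
    X.v1 - 3 * X.c * u.l1 + (u.x11 * X.a1 + u.x12 * X.a2),
    X.v2 - 3 * X.c * u.l2 + (u.x21 * X.a1 + u.x22 * X.a2)⟩

/-- action of matrices on `GG` -/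
def actMG (g : Matrix (Fin 2) (Fin 2) ℤ) (X : GG) : GG :=
  ⟨g 0 0 * X.a1 + g 0 1 * X.a2, g 1 0 * X.a1 + g 1 1 * X.a2,
    (g 0 0 * g 1 1 - g 0 1 * g 1 0) * X.c,
    (g 0 0 * g 1 1 - g 0 1 * g 1 0) * (g 0 0 * X.v1 + g 0 1 * X.v2),
    (g 0 0 * g 1 1 - g 0 1 * g 1 0) * (g 1 0 * X.v1 + g 1 1 * X.v2)⟩

theorem actUG_one (X : GG) : actUG 1 X = X := by
  ext <;> simp [actUG]

theorem actUG_mul (u v : UU ℤ) (X : GG) : actUG (u * v) X = actUG u (actUG v X) := by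
  ext <;> simp [actUG] <;> ring

theorem actUG_map (u : UU ℤ) (X Y : GG) : actUG u (X * Y) = actUG u X * actUG u Y := by
  ext <;> simp [actUG] <;> ring

theorem actMG_one (X : GG) : actMG 1 X = X := by
  ext <;> simp [actMG]

theorem actMG_mul (g h : Matrix (Fin 2) (Fin 2) ℤ) (X : GG) :
    actMG (g * h) X = actMG g (actMG h X) := by
  ext <;> simp [actMG, Matrix.mul_apply, Fin.sum_univ_two] <;> ring

theorem actMG_map (g : Matrix (Fin 2) (Fin 2) ℤ) (X Y : GG) :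
    actMG g (X * Y) = actMG g X * actMG g Y := by
  ext <;> simp [actMG] <;> ring

theorem act_compat (g : Matrix (Fin 2) (Fin 2) ℤ) (u : UU ℤ) (X : GG) :
    actUG (UU.act g u) (actMG g X) = actMG g (actUG u X) := by
  ext <;> simp [actMG, actUG, UU.act] <;> ring

/-- `UU ℤ` acts by automorphisms -/
def homU : UU ℤ →* MulAut GG where
  toFun u :=
    { toFun := actUG u
      invFun := actUG u⁻¹
      left_inv := fun X => by rw [← actUG_mul, inv_mul_cancel, actUG_one]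
      right_inv := fun X => by rw [← actUG_mul, mul_inv_cancel, actUG_one]
      map_mul' := actUG_map u }
  map_one' := by ext X : 1; exact actUG_one X
  map_mul' u v := by ext X : 1; exact actUG_mul u v X

/-- `GL₂(ℤ)` acts by automorphisms -/
def homM : GL2 →* MulAut GG where
  toFun g :=
    { toFun := actMG g
      invFun := actMG ((g⁻¹ : GL2) : Matrix (Fin 2) (Fin 2) ℤ)
      left_inv := fun X => by
        rw [← actMG_mul, ← Units.val_mul, inv_mul_cancel, Units.val_one, actMG_one]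
      right_inv := fun X => by
        rw [← actMG_mul, ← Units.val_mul, mul_inv_cancel, Units.val_one, actMG_one]
      map_mul' := actMG_map _ }
  map_one' := by ext X : 1; exact actMG_one X
  map_mul' u v := by ext X : 1; exact actMG_mul _ _ X

/-- The action of `B` on `GG`. -/
def psi : BB ℤ →* MulAut GG :=
  SemidirectProduct.lift homU homM (by
    intro g
    ext u X : 2
    show actUG (UU.act g u) X = actMG g (actUG u (actMG ((g⁻¹ : GL2) : Matrix (Fin 2) (Fin 2) ℤ) X))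
    rw [← act_compat, ← actMG_mul, ← Units.val_mul, mul_inv_cancel, Units.val_one, actMG_one])

theorem psi_apply (b : BB ℤ) (X : GG) : psi b X = actUG b.left (actMG b.right X) := rfl

theorem psi_injective : Function.Injective psi := by
  rw [injective_iff_map_eq_one]
  intro b hb
  have h1 := congrArg (fun f : MulAut GG => f ⟨1, 0, 0, 0, 0⟩) hb
  have h2 := congrArg (fun f : MulAut GG => f ⟨0, 1, 0, 0, 0⟩) hb
  simp only [psi_apply, MulAut.one_apply, GG.ext_iff] at h1 h2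
  simp [actUG, actMG] at h1 h2
  obtain ⟨g00, g10, e1, e2, e3⟩ := h1
  obtain ⟨g01, g11, f1, f2, f3⟩ := h2
  rw [g00, g10] at e1 e2 e3
  rw [g01, g11] at f1 f2 f3
  apply SemidirectProduct.ext
  · ext
    · simp; linarith
    · simp; linarith
    · simp; linarith
    · simp; linarith
    · simp; linarith
    · simp; linarith
  · apply gl_ext <;> simp [g00, g01, g10, g11]

/-- central elements of `GG` -/
theorem central_iff (X : GG) : (∀ Y, X * Y * X⁻¹ * Y⁻¹ = 1) ↔ X.a1 = 0 ∧ X.a2 = 0 ∧ X.c = 0 := by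
  constructor
  · intro h
    have h1 := h ⟨1, 0, 0, 0, 0⟩
    have h2 := h ⟨0, 1, 0, 0, 0⟩
    rw [GG.cmm] at h1 h2
    have a1 := congrArg GG.c h1
    have a2 := congrArg GG.c h2
    have a3 := congrArg GG.v1 h1
    simp at a1 a2 a3
    refine ⟨a2, a1, ?_⟩
    rw [a1, a2] at a3
    omega
  · rintro ⟨h1, h2, h3⟩ Y
    rw [GG.cmm]
    ext <;> simp [h1, h2, h3]

theorem aut_central (θ : MulAut GG) {X : GG} (h : X.a1 = 0 ∧ X.a2 = 0 ∧ X.c = 0) :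
    (θ X).a1 = 0 ∧ (θ X).a2 = 0 ∧ (θ X).c = 0 := by
  rw [← central_iff] at h ⊢
  intro Y
  have h1 := congrArg θ (h (θ⁻¹ Y))
  simpa using h1

theorem second_iff (X : GG) : (∀ Y, (X * Y * X⁻¹ * Y⁻¹).a1 = 0 ∧ (X * Y * X⁻¹ * Y⁻¹).a2 = 0 ∧
    (X * Y * X⁻¹ * Y⁻¹).c = 0) ↔ X.a1 = 0 ∧ X.a2 = 0 := by
  constructor
  · intro h
    have h1 := (h ⟨1, 0, 0, 0, 0⟩).2.2
    have h2 := (h ⟨0, 1, 0, 0, 0⟩).2.2
    rw [GG.cmm] at h1 h2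
    simp at h1 h2
    exact ⟨h2, h1⟩
  · rintro ⟨h1, h2⟩ Y
    rw [GG.cmm]
    simp [h1, h2]

theorem aut_second (θ : MulAut GG) {X : GG} (h : X.a1 = 0 ∧ X.a2 = 0) :
    (θ X).a1 = 0 ∧ (θ X).a2 = 0 := by
  rw [← second_iff] at h ⊢
  intro Y
  have h1 := aut_central θ (h (θ⁻¹ Y))
  simpa using h1

/-- linearity of the first two coordinates -/
theorem aut_a (θ : MulAut GG) (X : GG) :
    (θ X).a1 = (θ ⟨1, 0, 0, 0, 0⟩).a1 * X.a1 + (θ ⟨0, 1, 0, 0, 0⟩).a1 * X.a2 ∧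
    (θ X).a2 = (θ ⟨1, 0, 0, 0, 0⟩).a2 * X.a1 + (θ ⟨0, 1, 0, 0, 0⟩).a2 * X.a2 := by
  have hz1 : ∀ (Y : GG) (k : ℤ), (Y ^ k).a1 = k * Y.a1 := by
    intro Y k
    have h := congrArg Multiplicative.toAdd (map_zpow GG.pa1 Y k)
    rw [toAdd_zpow] at h
    simpa [GG.pa1] using h
  have hz2 : ∀ (Y : GG) (k : ℤ), (Y ^ k).a2 = k * Y.a2 := by
    intro Y k
    have h := congrArg Multiplicative.toAdd (map_zpow GG.pa2 Y k)
    rw [toAdd_zpow] at h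
    simpa [GG.pa2] using h
  have k3 := aut_second θ (X := ⟨0, 0, 1, 0, 0⟩) ⟨rfl, rfl⟩
  have k4 := aut_second θ (X := ⟨0, 0, 0, 1, 0⟩) ⟨rfl, rfl⟩
  have k5 := aut_second θ (X := ⟨0, 0, 0, 0, 1⟩) ⟨rfl, rfl⟩
  have e := congrArg θ (GG.normal_form X)
  simp only [map_mul, map_zpow] at e
  rw [e]
  constructor
  · simp [hz1, k3.1, k4.1, k5.1]; ring
  · simp [hz2, k3.2, k4.2, k5.2]; ring

/-- automorphisms acting trivially on the first two coordinates come from `UU ℤ` -/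
theorem aut_unip (θ : MulAut GG) (h1 : (θ ⟨1, 0, 0, 0, 0⟩).a1 = 1) (h2 : (θ ⟨1, 0, 0, 0, 0⟩).a2 = 0)
    (h3 : (θ ⟨0, 1, 0, 0, 0⟩).a1 = 0) (h4 : (θ ⟨0, 1, 0, 0, 0⟩).a2 = 1) :
    ∃ u : UU ℤ, θ = homU u := by
  obtain ⟨P, hP⟩ : ∃ P, P = θ ⟨1, 0, 0, 0, 0⟩ := ⟨_, rfl⟩
  obtain ⟨Q, hQ⟩ : ∃ Q, Q = θ ⟨0, 1, 0, 0, 0⟩ := ⟨_, rfl⟩
  obtain ⟨C, hC⟩ : ∃ C, C = θ ⟨0, 0, 1, 0, 0⟩ := ⟨_, rfl⟩
  obtain ⟨V, hV⟩ : ∃ V, V = θ ⟨0, 0, 0, 1, 0⟩ := ⟨_, rfl⟩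
  obtain ⟨W, hW⟩ : ∃ W, W = θ ⟨0, 0, 0, 0, 1⟩ := ⟨_, rfl⟩
  have hC12 := aut_second θ (X := ⟨0, 0, 1, 0, 0⟩) ⟨rfl, rfl⟩
  have hV12 := aut_central θ (X := ⟨0, 0, 0, 1, 0⟩) ⟨rfl, rfl, rfl⟩
  have hW12 := aut_central θ (X := ⟨0, 0, 0, 0, 1⟩) ⟨rfl, rfl, rfl⟩
  rw [← hP] at h1 h2
  rw [← hQ] at h3 h4
  rw [← hC] at hC12
  rw [← hV] at hV12
  rw [← hW] at hW12
  have hP' : P = ⟨1, 0, P.c, P.v1, P.v2⟩ := by
    ext <;> simp [h1, h2]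
  have hQ' : Q = ⟨0, 1, Q.c, Q.v1, Q.v2⟩ := by
    ext <;> simp [h3, h4]
  have hC' : C = ⟨0, 0, C.c, C.v1, C.v2⟩ := by
    ext <;> simp [hC12]
  have hV' : V = ⟨0, 0, 0, V.v1, V.v2⟩ := by
    ext <;> simp [hV12]
  have hW' : W = ⟨0, 0, 0, W.v1, W.v2⟩ := by
    ext <;> simp [hW12]
  -- commutator of `E1` and `E2`
  have c1 : (⟨1, 0, 0, 0, 0⟩ : GG) * ⟨0, 1, 0, 0, 0⟩ * (⟨1, 0, 0, 0, 0⟩ : GG)⁻¹ *
      (⟨0, 1, 0, 0, 0⟩ : GG)⁻¹ = (⟨0, 0, 1, 0, 0⟩ : GG) ^ (2 : ℤ) * (⟨0, 0, 0, 1, 0⟩ : GG) ^ (-6 : ℤ)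
      * (⟨0, 0, 0, 0, 1⟩ : GG) ^ (-6 : ℤ) := by
    rw [GG.cmm, GG.zpow_Z2, GG.zpow_Z2, GG.zpow_Z2]
    ext <;> simp
  have c2 : (⟨0, 0, 1, 0, 0⟩ : GG) * ⟨1, 0, 0, 0, 0⟩ * (⟨0, 0, 1, 0, 0⟩ : GG)⁻¹ *
      (⟨1, 0, 0, 0, 0⟩ : GG)⁻¹ = (⟨0, 0, 0, 1, 0⟩ : GG) ^ (6 : ℤ) := by
    rw [GG.cmm, GG.zpow_Z2]
    ext <;> simp
  have c3 : (⟨0, 0, 1, 0, 0⟩ : GG) * ⟨0, 1, 0, 0, 0⟩ * (⟨0, 0, 1, 0, 0⟩ : GG)⁻¹ *
      (⟨0, 1, 0, 0, 0⟩ : GG)⁻¹ = (⟨0, 0, 0, 0, 1⟩ : GG) ^ (6 : ℤ) := by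
    rw [GG.cmm, GG.zpow_Z2]
    ext <;> simp
  have d1 := congrArg θ c1
  have d2 := congrArg θ c2
  have d3 := congrArg θ c3
  simp only [map_mul, map_inv, map_zpow, ← hP, ← hQ, ← hC, ← hV, ← hW] at d1 d2 d3
  rw [GG.cmm, hP', hQ', hC', hV', hW', GG.zpow_Z2, GG.zpow_Z2, GG.zpow_Z2, GG.ext_iff] at d1
  rw [GG.cmm, hP', hC', hV', GG.zpow_Z2, GG.ext_iff] at d2
  rw [GG.cmm, hQ', hC', hW', GG.zpow_Z2, GG.ext_iff] at d3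
  simp at d1 d2 d3
  obtain ⟨d11, d12, d13⟩ := d1
  obtain ⟨d21, d22⟩ := d2
  obtain ⟨d31, d32⟩ := d3
  refine ⟨⟨Q.c, -P.c, P.v1, Q.v1, P.v2, Q.v2⟩, ?_⟩
  have key : θ.toMonoidHom = (homU ⟨Q.c, -P.c, P.v1, Q.v1, P.v2, Q.v2⟩).toMonoidHom := by
    apply GG.ext_hom
    · show θ ⟨1, 0, 0, 0, 0⟩ = actUG ⟨Q.c, -P.c, P.v1, Q.v1, P.v2, Q.v2⟩ ⟨1, 0, 0, 0, 0⟩
      rw [← hP]
      ext <;> simp [actUG, h1, h2]
    · show θ ⟨0, 1, 0, 0, 0⟩ = actUG ⟨Q.c, -P.c, P.v1, Q.v1, P.v2, Q.v2⟩ ⟨0, 1, 0, 0, 0⟩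
      rw [← hQ]
      ext <;> simp [actUG, h3, h4]
    · show θ ⟨0, 0, 1, 0, 0⟩ = actUG ⟨Q.c, -P.c, P.v1, Q.v1, P.v2, Q.v2⟩ ⟨0, 0, 1, 0, 0⟩
      rw [← hC]
      ext
      · simp [actUG, hC12]
      · simp [actUG, hC12]
      · simp [actUG]; omega
      · simp [actUG]; omega
      · simp [actUG]; omega
    · show θ ⟨0, 0, 0, 1, 0⟩ = actUG ⟨Q.c, -P.c, P.v1, Q.v1, P.v2, Q.v2⟩ ⟨0, 0, 0, 1, 0⟩
      rw [← hV]
      ext
      · simp [actUG, hV12]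
      · simp [actUG, hV12]
      · simp [actUG, hV12]
      · simp [actUG]; omega
      · simp [actUG]; omega
    · show θ ⟨0, 0, 0, 0, 1⟩ = actUG ⟨Q.c, -P.c, P.v1, Q.v1, P.v2, Q.v2⟩ ⟨0, 0, 0, 0, 1⟩
      rw [← hW]
      ext
      · simp [actUG, hW12]
      · simp [actUG, hW12]
      · simp [actUG, hW12]
      · simp [actUG]; omega
      · simp [actUG]; omega
  ext X : 1
  exact congrArg (fun f : GG →* GG => f X) key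

theorem psi_surjective : Function.Surjective psi := by
  intro θ
  let g : Matrix (Fin 2) (Fin 2) ℤ := !![(θ ⟨1, 0, 0, 0, 0⟩).a1, (θ ⟨0, 1, 0, 0, 0⟩).a1;
    (θ ⟨1, 0, 0, 0, 0⟩).a2, (θ ⟨0, 1, 0, 0, 0⟩).a2]
  let h : Matrix (Fin 2) (Fin 2) ℤ := !![(θ⁻¹ ⟨1, 0, 0, 0, 0⟩).a1, (θ⁻¹ ⟨0, 1, 0, 0, 0⟩).a1;
    (θ⁻¹ ⟨1, 0, 0, 0, 0⟩).a2, (θ⁻¹ ⟨0, 1, 0, 0, 0⟩).a2]
  have e1 := aut_a θ (θ⁻¹ ⟨1, 0, 0, 0, 0⟩)
  have e2 := aut_a θ (θ⁻¹ ⟨0, 1, 0, 0, 0⟩)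
  have e3 := aut_a θ⁻¹ (θ ⟨1, 0, 0, 0, 0⟩)
  have e4 := aut_a θ⁻¹ (θ ⟨0, 1, 0, 0, 0⟩)
  rw [MulAut.apply_inv_self] at e1 e2
  rw [MulAut.inv_apply_self] at e3 e4
  have hgh : g * h = 1 := by
    ext i j
    fin_cases i <;> fin_cases j <;> simp [g, h]
    · exact e1.1.symm
    · exact e2.1.symm
    · exact e1.2.symm
    · exact e2.2.symm
  have hhg : h * g = 1 := by
    ext i j
    fin_cases i <;> fin_cases j <;> simp [g, h]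
    · exact e3.1.symm
    · exact e4.1.symm
    · exact e3.2.symm
    · exact e4.2.symm
  let G : GL2 := ⟨g, h, hgh, hhg⟩
  have hG : (G : Matrix (Fin 2) (Fin 2) ℤ) = g := rfl
  have hGi : ((G⁻¹ : GL2) : Matrix (Fin 2) (Fin 2) ℤ) = h := rfl
  -- reduce
  obtain ⟨u, hu⟩ := aut_unip (θ * homM G⁻¹)
    (by
      rw [MulAut.mul_apply, (aut_a θ _).1]
      show _ * (actMG h ⟨1, 0, 0, 0, 0⟩).a1 + _ * (actMG h ⟨1, 0, 0, 0, 0⟩).a2 = 1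
      simp [actMG, h]; exact e1.1.symm)
    (by
      rw [MulAut.mul_apply, (aut_a θ _).2]
      show _ * (actMG h ⟨1, 0, 0, 0, 0⟩).a1 + _ * (actMG h ⟨1, 0, 0, 0, 0⟩).a2 = 0
      simp [actMG, h]; exact e1.2.symm)
    (by
      rw [MulAut.mul_apply, (aut_a θ _).1]
      show _ * (actMG h ⟨0, 1, 0, 0, 0⟩).a1 + _ * (actMG h ⟨0, 1, 0, 0, 0⟩).a2 = 0
      simp [actMG, h]; exact e2.1.symm)
    (by
      rw [MulAut.mul_apply, (aut_a θ _).2]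
      show _ * (actMG h ⟨0, 1, 0, 0, 0⟩).a1 + _ * (actMG h ⟨0, 1, 0, 0, 0⟩).a2 = 1
      simp [actMG, h]; exact e2.2.symm)
  refine ⟨inl u * inr G, ?_⟩
  have h5 : psi (inl u * inr G) = homU u * homM G := by
    rw [map_mul]
    congr 1
    · exact SemidirectProduct.lift_inl _ _ _ _
    · exact SemidirectProduct.lift_inr _ _ _ _
  rw [h5, ← hu, mul_assoc, ← map_mul, inv_mul_cancel, map_one, mul_one]

/-- `Aut (GG) ≅ B` -/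
noncomputable def autG : BB ℤ ≃* MulAut GG :=
  MulEquiv.ofBijective psi ⟨psi_injective, psi_surjective⟩

end Pool.Agent.Helper886.Tower
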