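import Mathlib

set_option autoImplicit false

namespace Pool.Agent.Helper886.Tower

/-- `z` generates a normal cyclic subgroup in the strong sense: each conjugate of `z` is `z` or
`z⁻¹`. -/
def NN {A : Type} [Group A] (z : A) : Prop := ∀ g : A, g * z * g⁻¹ = z ∨ g * z * g⁻¹ = z⁻¹

/-- `w` commutes with each of its conjugates up to an element of `NN`. -/
def EE {A : Type} [Group A] (w : A) : Prop :=
  ∀ g : A, NN (w * (g * w * g⁻¹) * w⁻¹ * (g * w * g⁻¹)⁻¹)

theorem NN.map {A A' : Type} [Group A] [Group A'] (f : A ≃* A') {z : A} (h : NN z) : NN (f z) := by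
  intro g
  obtain ⟨g, rfl⟩ := f.surjective g
  rcases h g with h | h
  · left; rw [← map_inv, ← map_mul, ← map_mul, h]
  · right; rw [← map_inv, ← map_mul, ← map_mul, h, map_inv]

theorem NN.map_iff {A A' : Type} [Group A] [Group A'] (f : A ≃* A') {z : A} :
    NN (f z) ↔ NN z := by
  refine ⟨fun h => ?_, fun h => h.map f⟩
  have := h.map f.symm
  simpa using this

theorem EE.map {A A' : Type} [Group A] [Group A'] (f : A ≃* A') {z : A} (h : EE z) : EE (f z) := by
  intro g
  obtain ⟨g, rfl⟩ := f.surjective g
  have := (h g).map f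
  simpa using this

theorem EE.map_iff {A A' : Type} [Group A] [Group A'] (f : A ≃* A') {z : A} :
    EE (f z) ↔ EE z := by
  refine ⟨fun h => ?_, fun h => h.map f⟩
  have := h.map f.symm
  simpa using this

theorem conj_injective {A : Type} [Group A] (hc : ∀ a : A, (∀ b, a * b = b * a) → a = 1)
    {a b : A} (h : MulAut.conj a = MulAut.conj b) : a = b := by
  have : b⁻¹ * a = 1 := by
    apply hc
    intro c
    have h1 := congrArg (fun f : MulAut A => f c) h
    simp only [MulAut.conj_apply] at h1
    calc b⁻¹ * a * c = b⁻¹ * (a * c * a⁻¹) * a := by group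
      _ = b⁻¹ * (b * c * b⁻¹) * a := by rw [h1]
      _ = c * (b⁻¹ * a) := by group
  calc a = b * (b⁻¹ * a) := by group
    _ = b := by rw [this, mul_one]

theorem mulAut_conj_comm {A : Type} [Group A] (w : MulAut A) (g : A) :
    w * MulAut.conj g * w⁻¹ = MulAut.conj (w g) := by
  ext x
  simp [MulAut.conj_apply]

/-- The automorphism group of a centreless group has the inner automorphisms self-centralising. -/
theorem aut_eq_one {A : Type} [Group A] (hc : ∀ a : A, (∀ b, a * b = b * a) → a = 1)
    (w : MulAut A) (h : ∀ g : A, w * MulAut.conj g = MulAut.conj g * w) : w = 1 := by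
  ext g
  have h1 : MulAut.conj (w g) = MulAut.conj g := by
    rw [← mulAut_conj_comm, h g]; group
  exact conj_injective hc h1

/-- Key lemma: the largest infinite cyclic normal subgroup acquires a square root in the
automorphism group. -/
theorem lemma1 {A : Type} [Group A] (hc : ∀ a : A, (∀ b, a * b = b * a) → a = 1) (z : A)
    (hz : ∀ k : ℤ, z ^ k = 1 → k = 0) (hN : ∀ y : A, NN y ↔ ∃ k : ℤ, y = z ^ k) :
    ∃ φ : MulAut A, φ * φ = MulAut.conj z ∧ (∀ y : MulAut A, NN y ↔ ∃ k : ℤ, y = φ ^ k) ∧
      (∀ g : A, (g * z * g⁻¹ = z ∧ φ g = g) ∨ (g * z * g⁻¹ = z⁻¹ ∧ φ g = z * g)) := by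
  classical
  have hzN : NN z := (hN z).2 ⟨1, by simp⟩
  have hzz : z ≠ z⁻¹ := by
    intro h
    have : z ^ (2 : ℤ) = 1 := by
      rw [zpow_two]
      nth_rewrite 2 [h]
      simp
    have := hz 2 this
    omega
  -- the sign function
  let P : A → Prop := fun g => g * z * g⁻¹ = z
  have hP1 : ∀ g, P g → ∀ k : ℤ, g * z ^ k * g⁻¹ = z ^ k := by
    intro g hg k
    rw [← conj_zpow, hg]
  have hP2 : ∀ g, ¬ P g → ∀ k : ℤ, g * z ^ k * g⁻¹ = z ^ (-k) := by
    intro g hg k
    have : g * z * g⁻¹ = z⁻¹ := (hzN g).resolve_left hg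
    rw [← conj_zpow, this, inv_zpow, zpow_neg]
  have hPmul : ∀ g h, P (g * h) ↔ (P g ↔ P h) := by
    intro g h
    have e1 : (g * h) * z * (g * h)⁻¹ = g * (h * z * h⁻¹) * g⁻¹ := by group
    by_cases hg : P g <;> by_cases hh : P h
    · have : P (g * h) := by
        show (g * h) * z * (g * h)⁻¹ = z
        rw [e1, show h * z * h⁻¹ = z from hh]; exact hg
      simp [hg, hh, this]
    · have : ¬ P (g * h) := by
        intro h3
        have h4 : (g * h) * z * (g * h)⁻¹ = z := h3
        rw [e1, (hzN h).resolve_left hh] at h4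
        have h5 := hP1 g hg (-1)
        rw [zpow_neg_one] at h5
        rw [h5] at h4
        exact hzz h4.symm
      simp [hg, hh, this]
    · have : ¬ P (g * h) := by
        intro h3
        have h4 : (g * h) * z * (g * h)⁻¹ = z := h3
        rw [e1, show h * z * h⁻¹ = z from hh] at h4
        exact hg h4
      simp [hg, hh, this]
    · have : P (g * h) := by
        show (g * h) * z * (g * h)⁻¹ = z
        rw [e1, (hzN h).resolve_left hh]
        have h5 := hP2 g hg (-1)
        rw [zpow_neg_one] at h5
        rw [h5]; simp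
      simp [hg, hh, this]
  have hPz : P z := by show z * z * z⁻¹ = z; group
  let ε : A → ℤ := fun g => if P g then 0 else 1
  have hε0 : ∀ g, P g → ε g = 0 := fun g hg => if_pos hg
  have hε1 : ∀ g, ¬ P g → ε g = 1 := fun g hg => if_neg hg
  have hPzk : ∀ (k : ℤ) (g : A), P (z ^ k * g) ↔ P g := by
    intro k g
    have : P (z ^ k) := by show z ^ k * z * (z ^ k)⁻¹ = z; group
    rw [hPmul]; simp [this]
  let F : A → A := fun g => z ^ (ε g) * g
  let F' : A → A := fun g => z ^ (- ε g) * g
  have hFF' : ∀ g, F' (F g) = g := by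
    intro g
    have : ε (z ^ (ε g) * g) = ε g := by
      by_cases hg : P g
      · rw [hε0 _ ((hPzk _ _).2 hg), hε0 _ hg]
      · rw [hε1 _ (fun h => hg ((hPzk _ _).1 h)), hε1 _ hg]
    show z ^ (- ε (z ^ (ε g) * g)) * (z ^ (ε g) * g) = g
    rw [this]; group
  have hF'F : ∀ g, F (F' g) = g := by
    intro g
    have : ε (z ^ (- ε g) * g) = ε g := by
      by_cases hg : P g
      · rw [hε0 _ ((hPzk _ _).2 hg), hε0 _ hg]
      · rw [hε1 _ (fun h => hg ((hPzk _ _).1 h)), hε1 _ hg]
    show z ^ (ε (z ^ (- ε g) * g)) * (z ^ (- ε g) * g) = g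
    rw [this]; group
  have hFmul : ∀ g h, F (g * h) = F g * F h := by
    intro g h
    show z ^ (ε (g * h)) * (g * h) = z ^ (ε g) * g * (z ^ (ε h) * h)
    by_cases hg : P g <;> by_cases hh : P h
    · rw [hε0 _ ((hPmul g h).2 (by simp [hg, hh])), hε0 _ hg, hε0 _ hh]; group
    · rw [hε1 (g * h) (fun h' => by have := (hPmul g h).1 h'; simp [hg, hh] at this), hε0 _ hg,
        hε1 _ hh]
      have := hP1 g hg 1
      calc z ^ (1 : ℤ) * (g * h) = g * z ^ (1 : ℤ) * g⁻¹ * (g * h) := by rw [this]
        _ = z ^ (0 : ℤ) * g * (z ^ (1 : ℤ) * h) := by group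
    · rw [hε1 (g * h) (fun h' => by have := (hPmul g h).1 h'; simp [hg, hh] at this), hε1 _ hg,
        hε0 _ hh]
      group
    · rw [hε0 (g * h) ((hPmul g h).2 (by simp [hg, hh])), hε1 _ hg, hε1 _ hh]
      have := hP2 g hg 1
      calc z ^ (0 : ℤ) * (g * h) = z ^ (1 : ℤ) * (z ^ (-1 : ℤ)) * (g * h) := by group
        _ = z ^ (1 : ℤ) * (g * z ^ (1 : ℤ) * g⁻¹) * (g * h) := by rw [this]
        _ = z ^ (1 : ℤ) * g * (z ^ (1 : ℤ) * h) := by group
  let φ : MulAut A :=
    { toFun := F, invFun := F', left_inv := hFF', right_inv := hF'F, map_mul' := hFmul }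
  have hφ : ∀ g, φ g = z ^ (ε g) * g := fun g => rfl
  have hφφ : φ * φ = MulAut.conj z := by
    ext g
    have h1 : ε (z ^ (ε g) * g) = ε g := by
      by_cases hg : P g
      · rw [hε0 _ ((hPzk _ _).2 hg), hε0 _ hg]
      · rw [hε1 _ (fun h => hg ((hPzk _ _).1 h)), hε1 _ hg]
    rw [MulAut.mul_apply, hφ, hφ, h1, MulAut.conj_apply]
    by_cases hg : P g
    · rw [hε0 _ hg]
      have : g * z * g⁻¹ = z := hg
      calc z ^ (0 : ℤ) * (z ^ (0 : ℤ) * g) = (g * z * g⁻¹) * g * z⁻¹ := by group
        _ = z * g * z⁻¹ := by rw [this]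
    · rw [hε1 _ hg]
      have := hP2 g hg 1
      calc z ^ (1 : ℤ) * (z ^ (1 : ℤ) * g) = z ^ (1 : ℤ) * (z ^ (-1 : ℤ))⁻¹ * g := by group
        _ = z ^ (1 : ℤ) * (g * z ^ (1 : ℤ) * g⁻¹)⁻¹ * g := by rw [this]
        _ = z * g * z⁻¹ := by group
  have hφinf : ∀ k : ℤ, φ ^ k = 1 → k = 0 := by
    intro k hk
    have h1 : MulAut.conj (z ^ k) = 1 := by
      rw [map_zpow, ← hφφ, ← pow_two, ← zpow_natCast, ← zpow_mul, mul_comm, zpow_mul, hk, one_zpow]
    have h2 : MulAut.conj (z ^ k) = MulAut.conj (1 : A) := by rw [h1, map_one]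
    exact hz k (conj_injective hc h2)
  -- `φ` is in `NN`
  have hφN : NN φ := by
    intro θ
    have hθz : NN (θ z) := hzN.map θ
    obtain ⟨k, hk⟩ := (hN _).1 hθz
    have hθz' : NN (θ.symm z) := hzN.map θ.symm
    obtain ⟨k', hk'⟩ := (hN _).1 hθz'
    have hkk : k * k' = 1 := by
      have : z ^ (k * k' - 1) = 1 := by
        have h1 : z = z ^ (k * k') := by
          calc z = θ (θ.symm z) := by simp
            _ = z ^ (k * k') := by rw [hk', map_zpow, hk, zpow_mul]
        rw [zpow_sub, ← h1]; simp
      have := hz _ this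
      omega
    have hk1 : k = 1 ∨ k = -1 := Int.eq_one_or_neg_one_of_mul_eq_one hkk
    have hPθ : ∀ g, P (θ g) ↔ P g := by
      intro g
      have e1 : ∀ x, θ (x * z * x⁻¹) = θ x * z ^ k * (θ x)⁻¹ := by
        intro x; rw [map_mul, map_mul, map_inv, hk]
      constructor
      · intro h
        have h1 := e1 g
        rw [hP1 _ h, ← hk] at h1
        exact θ.injective h1
      · intro h
        by_contra h2
        have h1 := e1 g
        rw [hP2 _ h2, show g * z * g⁻¹ = z from h, hk] at h1
        have : z ^ (2 * k) = 1 := by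
          rw [two_mul, zpow_add]
          nth_rewrite 2 [h1]
          rw [← zpow_add]; simp
        have := hz _ this
        omega
    have key : ∀ g, (θ * φ * θ⁻¹) g = z ^ (k * ε g) * g := by
      intro g
      have h0 : (θ * φ * θ⁻¹) g = θ (φ (θ⁻¹ g)) := rfl
      have h1 : ε (θ⁻¹ g) = ε g := by
        have := hPθ (θ⁻¹ g)
        have h2 : θ (θ⁻¹ g) = g := MulAut.apply_inv_self _ θ g
        rw [h2] at this
        by_cases hg : P g
        · rw [hε0 _ (this.1 hg), hε0 _ hg]
        · rw [hε1 _ (fun h => hg (this.2 h)), hε1 _ hg]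
      rw [h0, hφ, map_mul, map_zpow, hk, h1, ← zpow_mul, MulAut.apply_inv_self]
    rcases hk1 with rfl | rfl
    · left
      ext g
      rw [key, hφ, one_mul]
    · right
      ext g
      rw [key]
      have : φ⁻¹ g = z ^ (- ε g) * g := rfl
      rw [this]; simp
  refine ⟨φ, hφφ, ?_, ?_⟩
  · intro w
    constructor
    · intro hw
      by_cases hcomm : ∀ g : A, w * MulAut.conj g = MulAut.conj g * w
      · exact ⟨0, by rw [aut_eq_one hc w hcomm]; simp⟩
      · push Not at hcomm
        obtain ⟨g, hg⟩ := hcomm
        have hg' : MulAut.conj g * w * (MulAut.conj g)⁻¹ = w⁻¹ := by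
          refine (hw (MulAut.conj g)).resolve_left ?_
          intro h
          apply hg
          nth_rewrite 1 [← h]
          group
        let b := w g * g⁻¹
        have hb : w * w = MulAut.conj b := by
          calc w * w = w * (w⁻¹)⁻¹ := by group
            _ = w * (MulAut.conj g * w * (MulAut.conj g)⁻¹)⁻¹ := by rw [hg']
            _ = (w * MulAut.conj g * w⁻¹) * (MulAut.conj g)⁻¹ := by group
            _ = MulAut.conj b := by rw [mulAut_conj_comm, ← map_inv, ← map_mul]
        have hbN : NN b := by
          intro x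
          have h1 : MulAut.conj (x * b * x⁻¹)
              = (MulAut.conj x * w * (MulAut.conj x)⁻¹) * (MulAut.conj x * w * (MulAut.conj x)⁻¹) := by
            rw [map_mul, map_mul, ← hb, map_inv]; group
          rcases hw (MulAut.conj x) with h | h
          · left
            apply conj_injective hc
            rw [h1, h, hb]
          · right
            apply conj_injective hc
            rw [h1, h, map_inv, ← hb]; group
        obtain ⟨k, hk⟩ := (hN b).1 hbN
        have hw2 : w * w = φ ^ (2 * k) := by
          rw [hb, hk, map_zpow, ← hφφ, zpow_mul, zpow_two]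
        by_cases hk0 : k = 0
        · exfalso
          apply hg
          have h2 : w * w = 1 := by rw [hw2, hk0]; simp
          have h3 : w⁻¹ = w := inv_eq_of_mul_eq_one_left h2
          rw [h3] at hg'
          nth_rewrite 1 [← hg']
          group
        · -- `w` commutes with `φ`
          have hwφ : φ * w * φ⁻¹ = w := by
            rcases hw φ with h | h
            · exact h
            · exfalso
              have h1 : φ * (w * w) * φ⁻¹ = w⁻¹ * w⁻¹ := by
                calc φ * (w * w) * φ⁻¹ = (φ * w * φ⁻¹) * (φ * w * φ⁻¹) := by group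
                  _ = w⁻¹ * w⁻¹ := by rw [h]
              have h2 : w⁻¹ * w⁻¹ = φ ^ (-(2 * k)) := by
                rw [zpow_neg, ← hw2]; group
              rw [h2, hw2] at h1
              have h3 : φ ^ (4 * k) = 1 := by
                have : φ * φ ^ (2 * k) * φ⁻¹ = φ ^ (2 * k) := by group
                rw [this] at h1
                calc φ ^ (4 * k) = φ ^ (2 * k) * φ ^ (2 * k) := by rw [← zpow_add]; congr 1; ring
                  _ = φ ^ (-(2 * k)) * φ ^ (2 * k) := by rw [← h1]
                  _ = 1 := by rw [← zpow_add]; simp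
              have := hφinf _ h3
              omega
          have hcom : w * φ = φ * w := by
            nth_rewrite 1 [← hwφ]; group
          let t := w * φ ^ (-k)
          have hcomk : w * φ ^ (-k) = φ ^ (-k) * w := (Commute.zpow_right hcom (-k)).eq
          have htt : t * t = 1 := by
            calc t * t = w * (φ ^ (-k) * w) * φ ^ (-k) := by simp only [t]; group
              _ = (w * w) * (φ ^ (-k) * φ ^ (-k)) := by rw [← hcomk]; group
              _ = 1 := by rw [hw2, ← zpow_add, ← zpow_add]; ring_nf; simp
          have ht : t = 1 := by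
            apply aut_eq_one hc
            intro x
            -- conj x acts by the same sign on `w` and on `φ`
            have hsame : MulAut.conj x * t * (MulAut.conj x)⁻¹ = t ∨
                MulAut.conj x * t * (MulAut.conj x)⁻¹ = t⁻¹ := by
              have e0 : MulAut.conj x * t * (MulAut.conj x)⁻¹
                  = (MulAut.conj x * w * (MulAut.conj x)⁻¹)
                    * (MulAut.conj x * φ * (MulAut.conj x)⁻¹) ^ (-k) := by
                rw [conj_zpow]; simp only [t]; group
              have e2 : ∀ y : MulAut A, y * φ ^ (2 * k) * y⁻¹ = (y * φ * y⁻¹) ^ (2 * k) := by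
                intro y; rw [conj_zpow]
              have e3 : ∀ y : MulAut A, y * (w * w) * y⁻¹ = (y * w * y⁻¹) * (y * w * y⁻¹) := by
                intro y; group
              rcases hw (MulAut.conj x) with h | h <;> rcases hφN (MulAut.conj x) with h' | h'
              · left; rw [e0, h, h']
              · exfalso
                have h3 := e3 (MulAut.conj x)
                rw [h, hw2, e2, h', inv_zpow] at h3
                have : φ ^ (4 * k) = 1 := by
                  calc φ ^ (4 * k) = φ ^ (2 * k) * φ ^ (2 * k) := by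
                        rw [← zpow_add]; congr 1; ring
                    _ = (φ ^ (2 * k))⁻¹ * φ ^ (2 * k) := by rw [h3]
                    _ = 1 := by group
                have := hφinf _ this
                omega
              · exfalso
                have h3 := e3 (MulAut.conj x)
                rw [h, hw2, e2, h'] at h3
                have h4 : w⁻¹ * w⁻¹ = (φ ^ (2 * k))⁻¹ := by rw [← hw2]; group
                rw [h4] at h3
                have : φ ^ (4 * k) = 1 := by
                  calc φ ^ (4 * k) = φ ^ (2 * k) * φ ^ (2 * k) := by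
                        rw [← zpow_add]; congr 1; ring
                    _ = (φ ^ (2 * k))⁻¹ * φ ^ (2 * k) := by rw [← h3]
                    _ = 1 := by group
                have := hφinf _ this
                omega
              · right
                rw [e0, h, h', inv_zpow]
                simp only [t]
                rw [hcomk]
                group
            have htinv : t⁻¹ = t := inv_eq_of_mul_eq_one_left htt
            have h5 : MulAut.conj x * t * (MulAut.conj x)⁻¹ = t := by
              rcases hsame with h | h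
              · exact h
              · rw [h, htinv]
            nth_rewrite 1 [← h5]
            group
          refine ⟨k, ?_⟩
          have : w = t * φ ^ k := by simp only [t]; group
          rw [this, ht, one_mul]
    · rintro ⟨k, rfl⟩ θ
      rcases hφN θ with h | h
      · left; rw [← conj_zpow, h]
      · right; rw [← conj_zpow, h, inv_zpow]
  · intro g
    by_cases hg : P g
    · left; exact ⟨hg, by rw [hφ, hε0 _ hg]; simp⟩
    · right; exact ⟨(hzN g).resolve_left hg, by rw [hφ, hε1 _ hg]; simp⟩

end Pool.Agent.Helper886.Tower
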