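import Mathlib
import Pool.Agent.Helper886.Tower.Basic
import Pool.Agent.Helper886.Tower.Groups
import Pool.Agent.Helper886.Tower.Cocycle

set_option autoImplicit false

namespace Pool.Agent.Helper886.Tower

open SemidirectProduct Matrix

/-- `T²` -/
def gT2 : GL2 := gT * gT
/-- lower unipotent -/
def gL : GL2 := ⟨!![1, 0; 1, 1], !![1, 0; -1, 1],
  by ext i j; fin_cases i <;> fin_cases j <;> simp,
  by ext i j; fin_cases i <;> fin_cases j <;> simp⟩
/-- lower unipotent squared -/
def gL2 : GL2 := gL * gL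

theorem coe_gL : (gL : Matrix (Fin 2) (Fin 2) ℤ) = !![1, 0; 1, 1] := rfl
theorem coe_gT2 : (gT2 : Matrix (Fin 2) (Fin 2) ℤ) = !![1, 2; 0, 1] := by
  rw [gT2, Units.val_mul, coe_gT]; ext i j; fin_cases i <;> fin_cases j <;> simp
theorem coe_gL2 : (gL2 : Matrix (Fin 2) (Fin 2) ℤ) = !![1, 0; 2, 1] := by
  rw [gL2, Units.val_mul, coe_gL]; ext i j; fin_cases i <;> fin_cases j <;> simp

theorem gl_mul_eq {g h k : GL2} (H : g * h = k) (i j : Fin 2) :
    (g : Matrix (Fin 2) (Fin 2) ℤ) i 0 * (h : Matrix (Fin 2) (Fin 2) ℤ) 0 j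
      + (g : Matrix (Fin 2) (Fin 2) ℤ) i 1 * (h : Matrix (Fin 2) (Fin 2) ℤ) 1 j
      = (k : Matrix (Fin 2) (Fin 2) ℤ) i j := by
  rw [← H, Units.val_mul, Matrix.mul_apply, Fin.sum_univ_two]

theorem gl_det (r : GL2) :
    (r : Matrix (Fin 2) (Fin 2) ℤ) 0 0 * (r : Matrix (Fin 2) (Fin 2) ℤ) 1 1
      - (r : Matrix (Fin 2) (Fin 2) ℤ) 0 1 * (r : Matrix (Fin 2) (Fin 2) ℤ) 1 0 = 1 ∨
    (r : Matrix (Fin 2) (Fin 2) ℤ) 0 0 * (r : Matrix (Fin 2) (Fin 2) ℤ) 1 1
      - (r : Matrix (Fin 2) (Fin 2) ℤ) 0 1 * (r : Matrix (Fin 2) (Fin 2) ℤ) 1 0 = -1 := by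
  have : IsUnit (r : Matrix (Fin 2) (Fin 2) ℤ).det :=
    (Matrix.isUnit_iff_isUnit_det _).1 r.isUnit
  rw [← Matrix.det_fin_two]
  exact Int.isUnit_iff.1 this

/-- a scalar matrix in `GL₂(ℤ)` is `±1` -/
theorem gl_scalar (r : GL2) (h1 : (r : Matrix (Fin 2) (Fin 2) ℤ) 0 1 = 0)
    (h2 : (r : Matrix (Fin 2) (Fin 2) ℤ) 1 0 = 0)
    (h3 : (r : Matrix (Fin 2) (Fin 2) ℤ) 0 0 = (r : Matrix (Fin 2) (Fin 2) ℤ) 1 1) :
    r = 1 ∨ r = gM := by
  have h4 := gl_det r
  rw [h1, h2, h3] at h4
  have h5 : (r : Matrix (Fin 2) (Fin 2) ℤ) 1 1 = 1 ∨ (r : Matrix (Fin 2) (Fin 2) ℤ) 1 1 = -1 := by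
    rcases h4 with h | h
    · have : ((r : Matrix (Fin 2) (Fin 2) ℤ) 1 1 - 1) * ((r : Matrix (Fin 2) (Fin 2) ℤ) 1 1 + 1) = 0 := by
        linarith
      rcases mul_eq_zero.1 this with h | h
      · left; linarith
      · right; linarith
    · exfalso
      nlinarith [sq_nonneg ((r : Matrix (Fin 2) (Fin 2) ℤ) 1 1)]
  rcases h5 with h5 | h5
  · left
    apply gl_ext <;> simp [h1, h2, h3, h5]
  · right
    apply gl_ext <;> simp [h1, h2, h3, h5, coe_gM]

/-- If each `g` commutes with `r` up to inversion of `r` then `r = ±1`. -/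
theorem gl_NN (r : GL2) (h : ∀ g : GL2, g * r = r * g ∨ r * g * r = g) : r = 1 ∨ r = gM := by
  have hT : (r : Matrix (Fin 2) (Fin 2) ℤ) 1 0 = 0 ∧
      (r : Matrix (Fin 2) (Fin 2) ℤ) 0 0 = (r : Matrix (Fin 2) (Fin 2) ℤ) 1 1 := by
    rcases h gT with h1 | h1
    · have e00 := gl_mul_eq h1 0 0
      have e01 := gl_mul_eq h1 0 1
      rw [Units.val_mul, Matrix.mul_apply, Fin.sum_univ_two] at e00 e01
      simp [coe_gT] at e00 e01
      exact ⟨e00, by linarith⟩
    · rcases h gT2 with h2 | h2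
      · have e00 := gl_mul_eq h2 0 0
        have e01 := gl_mul_eq h2 0 1
        rw [Units.val_mul, Matrix.mul_apply, Fin.sum_univ_two] at e00 e01
        simp [coe_gT2] at e00 e01
        exact ⟨e00, by linarith⟩
      · have a10 := gl_mul_eq h1 1 0
        have a01 := gl_mul_eq h1 0 1
        have b10 := gl_mul_eq h2 1 0
        have b01 := gl_mul_eq h2 0 1
        rw [Units.val_mul, Matrix.mul_apply, Matrix.mul_apply, Fin.sum_univ_two,
          Fin.sum_univ_two] at a10 a01 b10 b01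
        simp [coe_gT2, coe_gT] at a10 a01 b10 b01
        have hc : (r : Matrix (Fin 2) (Fin 2) ℤ) 1 0 = 0 := by
          have : (r : Matrix (Fin 2) (Fin 2) ℤ) 1 0 * (r : Matrix (Fin 2) (Fin 2) ℤ) 1 0 = 0 := by
            linarith
          exact mul_self_eq_zero.1 this
        refine ⟨hc, ?_⟩
        have hd : (r : Matrix (Fin 2) (Fin 2) ℤ) 0 0 * (r : Matrix (Fin 2) (Fin 2) ℤ) 1 1 = 1 := by
          linarith
        rcases Int.eq_one_or_neg_one_of_mul_eq_one hd with h3 | h3 <;> rw [h3] at hd ⊢ <;> linarith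
  have hL : (r : Matrix (Fin 2) (Fin 2) ℤ) 0 1 = 0 := by
    rcases h gL with h1 | h1
    · have e00 := gl_mul_eq h1 0 0
      rw [Units.val_mul, Matrix.mul_apply, Fin.sum_univ_two] at e00
      simp [coe_gL] at e00
      exact e00
    · rcases h gL2 with h2 | h2
      · have e00 := gl_mul_eq h2 0 0
        rw [Units.val_mul, Matrix.mul_apply, Fin.sum_univ_two] at e00
        simp [coe_gL2] at e00
        exact e00
      · have a01 := gl_mul_eq h1 0 1
        have b01 := gl_mul_eq h2 0 1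
        rw [Units.val_mul, Matrix.mul_apply, Matrix.mul_apply, Fin.sum_univ_two,
          Fin.sum_univ_two] at a01 b01
        simp [coe_gL2, coe_gL] at a01 b01
        have : (r : Matrix (Fin 2) (Fin 2) ℤ) 0 1 * (r : Matrix (Fin 2) (Fin 2) ℤ) 0 1 = 0 := by
          linarith
        exact mul_self_eq_zero.1 this
  exact gl_scalar r hL hT.1 hT.2

/-- the element `z₀ = (0, Id)` -/
def z0 : UU ℤ := ⟨0, 0, 1, 0, 0, 1⟩

theorem z0_zpow (k : ℤ) : z0 ^ k = ⟨0, 0, k, 0, 0, k⟩ := by
  let f : Multiplicative ℤ →* UU ℤ :=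
    { toFun := fun k => ⟨0, 0, k.toAdd, 0, 0, k.toAdd⟩
      map_one' := by ext <;> simp
      map_mul' := by intro a b; ext <;> simp }
  have h1 : z0 = f (Multiplicative.ofAdd 1) := rfl
  rw [h1, ← map_zpow]
  have : (Multiplicative.ofAdd (1 : ℤ)) ^ k = Multiplicative.ofAdd k := by
    rw [← ofAdd_zsmul]; simp
  rw [this]; rfl

theorem conj_inr_left (b : BB ℤ) (g : GL2) : (inr g * b * (inr g)⁻¹).left = actHom ℤ g b.left := by
  simp [-actHom_apply]

theorem conj_inr_right (b : BB ℤ) (g : GL2) :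
    (inr g * b * (inr g)⁻¹).right = g * b.right * g⁻¹ := by
  simp

theorem NN_base (b : BB ℤ) : NN b ↔ ∃ k : ℤ, b = (inl z0 : BB ℤ) ^ k := by
  constructor
  · intro h
    have hr : b.right = 1 ∨ b.right = gM := by
      apply gl_NN
      intro g
      rcases h (inr g) with h1 | h1
      · left
        have h2 := congrArg (fun x : BB ℤ => x.right) h1
        rw [conj_inr_right] at h2
        rw [mul_inv_eq_iff_eq_mul] at h2
        exact h2
      · right
        have h2 := congrArg (fun x : BB ℤ => x.right) h1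
        simp only [conj_inr_right, inv_right] at h2
        rw [mul_inv_eq_iff_eq_mul] at h2
        calc b.right * g * b.right = b.right * (g * b.right) := by group
          _ = b.right * (b.right⁻¹ * g) := by rw [h2]
          _ = g := by group
    have hr1 : b.right = 1 := by
      rcases hr with hr | hr
      · exact hr
      · exfalso
        have h3 := h (inl ⟨1, 0, 0, 0, 0, 0⟩)
        rcases h3 with h3 | h3
        · have h4 := congrArg (fun x : BB ℤ => x.left.l1) h3
          simp [hr, coe_gM, UU.act] at h4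
          omega
        · have h4 := congrArg (fun x : BB ℤ => x.left.l1) h3
          have h5 : (gM⁻¹ : GL2) = gM := by
            rw [inv_eq_iff_mul_eq_one]
            apply gl_ext <;> simp [coe_gM, Matrix.mul_apply, Fin.sum_univ_two]
          simp only [mul_left, left_inl, right_inl, map_one, inv_left, hr, h5] at h4
          simp [coe_gM, UU.act, hr] at h4
          omega
    have hS := h (inr gS)
    have hT := h (inr gT)
    have key : ∀ g : GL2, (inr g * b * (inr g)⁻¹ = b ∨ inr g * b * (inr g)⁻¹ = b⁻¹) →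
        (actHom ℤ g b.left = b.left ∨ actHom ℤ g b.left = b.left⁻¹) := by
      intro g hg
      rcases hg with h3 | h3
      · left
        have h4 := congrArg (fun x : BB ℤ => x.left) h3
        rwa [conj_inr_left] at h4
      · right
        have h4 := congrArg (fun x : BB ℤ => x.left) h3
        simp only [conj_inr_left, inv_left, hr1] at h4
        rw [h4]; simp
    have hS' := key gS hS
    have hT' := key gT hT
    obtain ⟨u, hu⟩ : ∃ u, u = b.left := ⟨_, rfl⟩
    rw [← hu] at hS' hT'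
    have aS : actHom ℤ gS u = ⟨-u.l2, u.l1, u.x22, -u.x21, -u.x12, u.x11⟩ := by
      rw [actHom_apply, coe_gS]
      ext <;> simp [UU.act]
    have aT : actHom ℤ gT u =
        ⟨u.l1 + u.l2, u.l2, u.x11 + u.x21, -u.x11 - u.x21 + u.x12 + u.x22, u.x21, -u.x21 + u.x22⟩ := by
      rw [actHom_apply, coe_gT]
      ext <;> (simp [UU.act]; try ring)
    rw [aS] at hS'
    rw [aT] at hT'
    simp only [UU.ext_iff, UU.inv_l1, UU.inv_l2, UU.inv_x11, UU.inv_x12, UU.inv_x21,
      UU.inv_x22] at hS' hT'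
    have hl1 : u.l1 = 0 := by
      rcases hS' with h5 | h5 <;> omega
    have hl2 : u.l2 = 0 := by
      rcases hS' with h5 | h5 <;> omega
    simp only [hl1, hl2, mul_zero, Int.cast_zero, add_zero, sub_zero] at hS' hT'
    have hx21 : u.x21 = 0 := by
      rcases hT' with h5 | h5 <;> omega
    have hx11 : u.x11 = u.x22 := by
      rcases hT' with h5 | h5 <;> omega
    have hx12 : u.x12 = 0 := by
      rcases hS' with h5 | h5 <;> omega
    refine ⟨u.x22, ?_⟩
    rw [← map_zpow, z0_zpow]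
    apply SemidirectProduct.ext
    · rw [left_inl, ← hu]
      ext <;> simp [hl1, hl2, hx21, hx11, hx12]
    · rw [right_inl, hr1]
  · rintro ⟨k, rfl⟩ g
    rw [← map_zpow, z0_zpow]
    rcases gl_det g.right with hd | hd
    · left
      apply SemidirectProduct.ext
      · simp only [mul_left, left_inl, right_inl, inv_left, mul_right, actHom_apply, mul_one,
          ← UU.act_mul, Units.val_one, ← Units.val_mul, mul_inv_cancel, UU.act_one]
        ext <;> simp [UU.act] <;> (ring_nf; try linear_combination k * hd)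
      · simp
    · right
      apply SemidirectProduct.ext
      · simp only [mul_left, left_inl, right_inl, inv_left, mul_right, actHom_apply, mul_one,
          ← UU.act_mul, Units.val_one, ← Units.val_mul, mul_inv_cancel, UU.act_one, inv_one]
        ext <;> simp [UU.act] <;> (ring_nf; try linear_combination k * hd)
      · simp

/-- the centre of `B` is trivial -/
theorem cent_base (b : BB ℤ) (h : ∀ c, b * c = c * b) : b = 1 := by
  have hN : NN b := by
    intro g; left; rw [← h g]; group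
  obtain ⟨k, hk⟩ := (NN_base b).1 hN
  have h1 := h (inr gE)
  rw [hk, ← map_zpow, z0_zpow] at h1
  have h2 := congrArg (fun x : BB ℤ => x.left.x11) h1
  simp [UU.act, coe_gE] at h2
  have : k = 0 := by omega
  rw [hk, this, zpow_zero]

theorem cmm_inl (u v : UU ℤ) : u * v * u⁻¹ * v⁻¹ =
    ⟨0, 0, 3 * (u.l1 * v.l2 - u.l2 * v.l1), 0, 0, 3 * (u.l1 * v.l2 - u.l2 * v.l1)⟩ := by
  ext <;> simp <;> ring

theorem EE_base (b : BB ℤ) : EE b ↔ b.right = 1 := by
  constructor
  · intro h
    have hcomm : ∀ g : GL2, b.right * (g * b.right * g⁻¹) = (g * b.right * g⁻¹) * b.right := by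
      intro g
      obtain ⟨k, hk⟩ := (NN_base _).1 (h (inr g))
      have h2 := congrArg (fun x : BB ℤ => x.right) hk
      simp only [mul_right, right_inr, inv_right] at h2
      rw [← map_zpow, right_inl] at h2
      calc b.right * (g * b.right * g⁻¹)
          = (b.right * (g * b.right * g⁻¹) * b.right⁻¹ * (g * b.right * g⁻¹)⁻¹)
            * ((g * b.right * g⁻¹) * b.right) := by group
        _ = (g * b.right * g⁻¹) * b.right := by rw [h2, one_mul]
    obtain ⟨r, hr⟩ : ∃ r, r = b.right := ⟨_, rfl⟩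
    rw [← hr] at hcomm
    have hT := hcomm gT
    have hL := hcomm gL
    have iT : ((gT⁻¹ : GL2) : Matrix (Fin 2) (Fin 2) ℤ) = !![1, -1; 0, 1] := rfl
    have iL : ((gL⁻¹ : GL2) : Matrix (Fin 2) (Fin 2) ℤ) = !![1, 0; -1, 1] := rfl
    have mT : ∀ i j, ((r * (gT * r * gT⁻¹) : GL2) : Matrix (Fin 2) (Fin 2) ℤ) i j
        = ((gT * r * gT⁻¹ * r : GL2) : Matrix (Fin 2) (Fin 2) ℤ) i j := by rw [hT]; simp
    have mL : ∀ i j, ((r * (gL * r * gL⁻¹) : GL2) : Matrix (Fin 2) (Fin 2) ℤ) i j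
        = ((gL * r * gL⁻¹ * r : GL2) : Matrix (Fin 2) (Fin 2) ℤ) i j := by rw [hL]; simp
    simp only [Units.val_mul, iT, iL, coe_gT, coe_gL, Matrix.mul_apply, Fin.sum_univ_two] at mT mL
    have h10 := mT 1 0
    have h01' := mL 0 1
    have h01 := mT 0 1
    simp at h10 h01 h01'
    have hc : (r : Matrix (Fin 2) (Fin 2) ℤ) 1 0 = 0 := by
      have : (r : Matrix (Fin 2) (Fin 2) ℤ) 1 0 * (r : Matrix (Fin 2) (Fin 2) ℤ) 1 0 = 0 := by
        linarith
      exact mul_self_eq_zero.1 this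
    have hb : (r : Matrix (Fin 2) (Fin 2) ℤ) 0 1 = 0 := by
      have : (r : Matrix (Fin 2) (Fin 2) ℤ) 0 1 * (r : Matrix (Fin 2) (Fin 2) ℤ) 0 1 = 0 := by
        linarith
      exact mul_self_eq_zero.1 this
    rw [hb, hc] at h01
    have had : (r : Matrix (Fin 2) (Fin 2) ℤ) 0 0 = (r : Matrix (Fin 2) (Fin 2) ℤ) 1 1 := by
      have : ((r : Matrix (Fin 2) (Fin 2) ℤ) 0 0 - (r : Matrix (Fin 2) (Fin 2) ℤ) 1 1)
          * ((r : Matrix (Fin 2) (Fin 2) ℤ) 0 0 - (r : Matrix (Fin 2) (Fin 2) ℤ) 1 1) = 0 := by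
        linarith
      have := mul_self_eq_zero.1 this
      linarith
    rcases gl_scalar r hb hc had with h5 | h5
    · exact hr ▸ h5
    · exfalso
      obtain ⟨k, hk⟩ := (NN_base _).1 (h (inl ⟨1, 0, 0, 0, 0, 0⟩))
      rw [← map_zpow, z0_zpow] at hk
      have h6 := congrArg (fun x : BB ℤ => x.left.l1) hk
      have h7 : (gM⁻¹ : GL2) = gM := by
        rw [inv_eq_iff_mul_eq_one]
        apply gl_ext <;> simp [coe_gM, Matrix.mul_apply, Fin.sum_univ_two]
      simp only [mul_left, left_inl, right_inl, inv_left, mul_right, inv_right, ← hr, h5, h7,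
        map_one, inv_one, one_mul, mul_one] at h6
      simp [coe_gM, UU.act] at h6
      omega
  · intro hb g
    rw [NN_base]
    have h1 : b = inl b.left := by
      apply SemidirectProduct.ext
      · simp
      · simpa using hb
    obtain ⟨u, hu⟩ : ∃ u : UU ℤ, b = inl u := ⟨_, h1⟩
    obtain ⟨v, hv⟩ : ∃ v : UU ℤ, g * inl u * g⁻¹ = inl v := by
      refine ⟨(g * inl u * g⁻¹).left, ?_⟩
      apply SemidirectProduct.ext
      · simp
      · simp
    rw [hu, hv, ← map_inv, ← map_inv, ← map_mul, ← map_mul, ← map_mul, cmm_inl]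
    refine ⟨3 * (u.l1 * v.l2 - u.l2 * v.l1), ?_⟩
    rw [← map_zpow, z0_zpow]

end Pool.Agent.Helper886.Tower
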