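import Mathlib
import Pool.Agent.Helper886.Tower.Base

set_option autoImplicit false

namespace Pool.Agent.Helper886.Tower

open SemidirectProduct Matrix

/-- The structure which is propagated along the automorphism tower. -/
structure Stage (n : ℕ) (A : Type) [Group A] where
  j : BB ℤ →* A
  rig : ∀ (X : Type) [Group X] (f g : A →* X), (∀ b, f (j b) = g (j b)) →
    (∀ x : X, (∀ b, x * f (j b) = f (j b) * x) → x = 1) → f = g
  cent : ∀ a : A, (∀ b, a * j b = j b * a) → a = 1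
  E : Subgroup A
  mem_E : ∀ y, y ∈ E ↔ EE y
  e : A → BB ℚ
  e_right : ∀ y ∈ E, (e y).right = 1
  e_mul : ∀ y ∈ E, ∀ y' ∈ E, e (y * y') = e y * e y'
  e_inj : ∀ y ∈ E, e y = 1 → y = 1
  jU_mem : ∀ u : UU ℤ, j (inl u) ∈ E
  e_j : ∀ u : UU ℤ, e (j (inl u)) = inl (castU u)
  e_conj : ∀ b, ∀ y ∈ E, e (j b * y * (j b)⁻¹) = castB b * e y * (castB b)⁻¹
  z : A
  z_mem : z ∈ E
  e_z : e z = inl ⟨0, 0, (1 / 2) ^ n, 0, 0, (1 / 2) ^ n⟩
  mem_N : ∀ y, NN y ↔ ∃ k : ℤ, y = z ^ k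

/-- The base of the tower. -/
def stageBase : Stage 0 (BB ℤ) where
  j := MonoidHom.id _
  rig := by
    intro X _ f g h _
    exact MonoidHom.ext h
  cent := by
    intro a h
    exact cent_base a h
  E := (rightHom (φ := actHom ℤ)).ker
  mem_E := by
    intro y
    rw [EE_base]
    exact Iff.rfl
  e := castB
  e_right := by
    intro y hy
    exact hy
  e_mul := by
    intro y _ y' _
    exact map_mul _ _ _
  e_inj := by
    intro y hy h
    have h1 := congrArg (fun x : BB ℚ => x.left) h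
    simp only [castB_left, one_left, UU.ext_iff, castU_l1, castU_l2, castU_x11, castU_x12,
      castU_x21, castU_x22, UU.one_l1, UU.one_l2, UU.one_x11, UU.one_x12, UU.one_x21, UU.one_x22,
      Int.cast_eq_zero] at h1
    apply SemidirectProduct.ext
    · ext
      · exact h1.1
      · exact h1.2.1
      · exact h1.2.2.1
      · exact h1.2.2.2.1
      · exact h1.2.2.2.2.1
      · exact h1.2.2.2.2.2
    · exact hy
  jU_mem := by
    intro u
    show (inl u : BB ℤ).right = 1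
    simp
  e_j := by
    intro u
    apply SemidirectProduct.ext
    · simp
    · simp
  e_conj := by
    intro b y _
    simp
  z := inl z0
  z_mem := by
    show (inl z0 : BB ℤ).right = 1
    simp
  e_z := by
    apply SemidirectProduct.ext
    · ext <;> simp [z0]
    · simp
  mem_N := NN_base

namespace Stage

variable {n : ℕ} {A : Type} [Group A] (S : Stage n A)

theorem e_one : S.e 1 = 1 := by
  have h := S.e_mul 1 S.E.one_mem 1 S.E.one_mem
  rw [mul_one] at h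
  have : S.e 1 * 1 = S.e 1 * S.e 1 := by rw [mul_one]; exact h
  exact (mul_left_cancel this).symm

theorem e_inv {y : A} (hy : y ∈ S.E) : S.e y⁻¹ = (S.e y)⁻¹ := by
  rw [eq_inv_iff_mul_eq_one, ← S.e_mul _ (S.E.inv_mem hy) _ hy, inv_mul_cancel, S.e_one]

/-- `e` as a homomorphism on `E` -/
def eHom : S.E →* BB ℚ where
  toFun y := S.e y
  map_one' := S.e_one
  map_mul' y y' := S.e_mul _ y.2 _ y'.2

theorem e_zpow {y : A} (hy : y ∈ S.E) (k : ℤ) : S.e (y ^ k) = S.e y ^ k := by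
  have := map_zpow S.eHom ⟨y, hy⟩ k
  exact this

theorem e_inj' {y y' : A} (hy : y ∈ S.E) (hy' : y' ∈ S.E) (h : S.e y = S.e y') : y = y' := by
  have h1 : y * y'⁻¹ = 1 := by
    apply S.e_inj _ (S.E.mul_mem hy (S.E.inv_mem hy'))
    rw [S.e_mul _ hy _ (S.E.inv_mem hy'), S.e_inv hy', h, mul_inv_cancel]
  exact mul_inv_eq_one.1 h1

theorem e_eq {y : A} (hy : y ∈ S.E) : S.e y = inl (S.e y).left := by
  apply SemidirectProduct.ext
  · simp
  · simpa using S.e_right y hy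

include S in
theorem centreless (a : A) (h : ∀ b, a * b = b * a) : a = 1 := S.cent a fun b => h (S.j b)

theorem map_E (θ : MulAut A) {y : A} (hy : y ∈ S.E) : θ y ∈ S.E := by
  rw [S.mem_E] at hy ⊢
  exact hy.map θ

theorem conj_E (g : A) {y : A} (hy : y ∈ S.E) : g * y * g⁻¹ ∈ S.E := by
  have := S.map_E (MulAut.conj g) hy
  simpa using this

theorem map_NN (θ : MulAut A) {y : A} (hy : NN y) : NN (θ y) := hy.map θ

/-- The centre of `E`. -/
def M : Subgroup A where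
  carrier := {y | y ∈ S.E ∧ (S.e y).left.l1 = 0 ∧ (S.e y).left.l2 = 0}
  mul_mem' := by
    rintro a b ⟨ha, ha1, ha2⟩ ⟨hb, hb1, hb2⟩
    refine ⟨S.E.mul_mem ha hb, ?_, ?_⟩
    · rw [S.e_mul _ ha _ hb, S.e_eq ha, S.e_eq hb, ← map_mul]; simp [ha1, hb1]
    · rw [S.e_mul _ ha _ hb, S.e_eq ha, S.e_eq hb, ← map_mul]; simp [ha2, hb2]
  one_mem' := by
    refine ⟨S.E.one_mem, ?_, ?_⟩
    · rw [S.e_one]; simp
    · rw [S.e_one]; simp
  inv_mem' := by
    rintro a ⟨ha, ha1, ha2⟩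
    refine ⟨S.E.inv_mem ha, ?_, ?_⟩
    · rw [S.e_inv ha, S.e_eq ha, ← map_inv]; simp [ha1]
    · rw [S.e_inv ha, S.e_eq ha, ← map_inv]; simp [ha2]

theorem M_le : S.M ≤ S.E := fun _ h => h.1

theorem uu_comm {R : Type} [CommRing R] {u v : UU R} (h1 : u.l1 = 0) (h2 : u.l2 = 0) :
    u * v = v * u := by
  ext <;> simp [h1, h2] <;> ring

theorem M_comm {m y : A} (hm : m ∈ S.M) (hy : y ∈ S.E) : m * y = y * m := by
  apply S.e_inj' (S.E.mul_mem hm.1 hy) (S.E.mul_mem hy hm.1)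
  rw [S.e_mul _ hm.1 _ hy, S.e_mul _ hy _ hm.1, S.e_eq hm.1, S.e_eq hy, ← map_mul, ← map_mul,
    uu_comm hm.2.1 hm.2.2]

theorem mem_M_of_comm {m : A} (hm : m ∈ S.E) (h : ∀ y ∈ S.E, m * y = y * m) : m ∈ S.M := by
  have key : ∀ u : UU ℤ, (S.e m).left * castU u = castU u * (S.e m).left := by
    intro u
    have h1 := h _ (S.jU_mem u)
    have h2 : S.e (m * S.j (inl u)) = S.e (S.j (inl u) * m) := by rw [h1]
    rw [S.e_mul _ hm _ (S.jU_mem u), S.e_mul _ (S.jU_mem u) _ hm, S.e_j, S.e_eq hm, ← map_mul,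
      ← map_mul] at h2
    have h3 := inl_injective h2
    simpa using h3
  refine ⟨hm, ?_, ?_⟩
  · have h1 := key ⟨0, 1, 0, 0, 0, 0⟩
    have h2 := congrArg UU.x11 h1
    simp at h2
    exact h2
  · have h1 := key ⟨1, 0, 0, 0, 0, 0⟩
    have h2 := congrArg UU.x22 h1
    simp at h2
    exact h2

theorem map_M (θ : MulAut A) {m : A} (hm : m ∈ S.M) : θ m ∈ S.M := by
  apply S.mem_M_of_comm (S.map_E θ hm.1)
  intro y hy
  have h1 : θ⁻¹ y ∈ S.E := S.map_E θ⁻¹ hy
  have h2 := S.M_comm hm h1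
  have h3 := congrArg θ h2
  rw [map_mul, map_mul, MulAut.apply_inv_self] at h3
  exact h3

theorem conj_M (g : A) {y : A} (hy : y ∈ S.M) : g * y * g⁻¹ ∈ S.M := by
  have := S.map_M (MulAut.conj g) hy
  simpa using this

theorem z_mem_M : S.z ∈ S.M := by
  refine ⟨S.z_mem, ?_, ?_⟩
  · rw [S.e_z]; simp
  · rw [S.e_z]; simp

theorem mk_zpow {R : Type} [CommRing R] (a b c d : R) (k : ℤ) :
    (⟨0, 0, a, b, c, d⟩ : UU R) ^ k = ⟨0, 0, k * a, k * b, k * c, k * d⟩ := by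
  let f : Multiplicative ℤ →* UU R :=
    { toFun := fun k => ⟨0, 0, k.toAdd * a, k.toAdd * b, k.toAdd * c, k.toAdd * d⟩
      map_one' := by ext <;> simp
      map_mul' := by intro a b; ext <;> simp <;> ring }
  have h1 : (⟨0, 0, a, b, c, d⟩ : UU R) = f (Multiplicative.ofAdd 1) := by
    ext <;> simp [f]
  rw [h1, ← map_zpow]
  have : (Multiplicative.ofAdd (1 : ℤ)) ^ k = Multiplicative.ofAdd k := by
    rw [← ofAdd_zsmul]; simp
  rw [this]; rfl

theorem e_zk (k : ℤ) : S.e (S.z ^ k) = inl ⟨0, 0, k * (1 / 2) ^ n, 0, 0, k * (1 / 2) ^ n⟩ := by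
  rw [S.e_zpow S.z_mem, S.e_z, ← map_zpow, mk_zpow]; simp

theorem zinf (k : ℤ) (h : S.z ^ k = 1) : k = 0 := by
  have h1 := S.e_zk k
  rw [h, S.e_one] at h1
  have h2 := congrArg (fun x : BB ℚ => x.left.x11) h1
  simp at h2
  exact h2

/-- Elements with vanishing `l`-part and which are in `NN` -/
theorem NN_e {y : A} (hy : NN y) : ∃ q : ℚ, S.e y = inl ⟨0, 0, q, 0, 0, q⟩ ∧ y ∈ S.M := by
  obtain ⟨k, rfl⟩ := (S.mem_N y).1 hy
  exact ⟨_, S.e_zk k, S.M.zpow_mem S.z_mem_M k⟩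

end Stage

end Pool.Agent.Helper886.Tower
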