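import Mathlib
import Pool.Agent.Helper886.Tower.Stage

set_option autoImplicit false

namespace Pool.Agent.Helper886.Tower

open SemidirectProduct Matrix

theorem uu_conj {R : Type} [CommRing R] (t s : UU R) : t * s * t⁻¹ =
    ⟨s.l1, s.l2, s.x11 + 3 * (t.l1 * s.l2 - t.l2 * s.l1), s.x12, s.x21,
      s.x22 + 3 * (t.l1 * s.l2 - t.l2 * s.l1)⟩ := by
  ext <;> simp <;> ring

/-- first coordinate as a homomorphism -/
def lam1 (R : Type) [CommRing R] : UU R →* Multiplicative ℤ where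
  toFun u := Multiplicative.ofAdd u.l1
  map_one' := rfl
  map_mul' _ _ := rfl

/-- second coordinate as a homomorphism -/
def lam2 (R : Type) [CommRing R] : UU R →* Multiplicative ℤ where
  toFun u := Multiplicative.ofAdd u.l2
  map_one' := rfl
  map_mul' _ _ := rfl

theorem zpow_l1 {R : Type} [CommRing R] (u : UU R) (k : ℤ) : (u ^ k).l1 = k * u.l1 := by
  have h := map_zpow (lam1 R) u k
  have h1 := congrArg Multiplicative.toAdd h
  rw [toAdd_zpow] at h1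
  simpa [lam1] using h1

theorem zpow_l2 {R : Type} [CommRing R] (u : UU R) (k : ℤ) : (u ^ k).l2 = k * u.l2 := by
  have h := map_zpow (lam2 R) u k
  have h1 := congrArg Multiplicative.toAdd h
  rw [toAdd_zpow] at h1
  simpa [lam2] using h1

namespace Stage

variable {n : ℕ} {A : Type} [Group A] (S : Stage n A)

include S in
theorem NN_of_conj {a : A} (h : NN (MulAut.conj a)) : NN a := by
  intro g
  rcases h (MulAut.conj g) with h | h
  · left
    apply conj_injective S.centreless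
    rw [map_mul, map_mul, map_inv]; exact h
  · right
    apply conj_injective S.centreless
    rw [map_mul, map_mul, map_inv, map_inv]; exact h

include S in
theorem E2 {w : MulAut A} (hw : EE w) (a : A) :
    NN (w (a * (w a)⁻¹) * (a * (w a)⁻¹)⁻¹) := by
  apply S.NN_of_conj
  have h := hw (MulAut.conj a)
  have e : w * (MulAut.conj a * w * (MulAut.conj a)⁻¹) * w⁻¹ *
      (MulAut.conj a * w * (MulAut.conj a)⁻¹)⁻¹
      = MulAut.conj (w (a * (w a)⁻¹) * (a * (w a)⁻¹)⁻¹) := by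
    have h1 : MulAut.conj a * w * (MulAut.conj a)⁻¹ = MulAut.conj (a * (w a)⁻¹) * w := by
      rw [map_mul, map_inv, ← mulAut_conj_comm]; group
    rw [h1, map_mul MulAut.conj (w (a * (w a)⁻¹)), map_inv MulAut.conj, ← mulAut_conj_comm]; group
  rw [← e]; exact h

theorem E1 (φ : MulAut A) (hφ : ∀ y : MulAut A, NN y ↔ ∃ k : ℤ, y = φ ^ k) {w : MulAut A}
    (hw : EE w) (a : A) : w a * a⁻¹ ∈ S.E := by
  rw [S.mem_E]
  intro g
  have hmem : ∀ x : MulAut A, x ∈ Subgroup.zpowers φ ↔ NN x := by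
    intro x
    rw [hφ, Subgroup.mem_zpowers_iff]
    constructor
    · rintro ⟨k, h⟩; exact ⟨k, h.symm⟩
    · rintro ⟨k, h⟩; exact ⟨k, h.symm⟩
  have hnorm : (Subgroup.zpowers φ).Normal := by
    refine ⟨fun x hx g => ?_⟩
    rcases (hmem x).1 hx g with h | h
    · rw [h]; exact hx
    · rw [h]; exact (Subgroup.zpowers φ).inv_mem hx
  let q : MulAut A →* MulAut A ⧸ Subgroup.zpowers φ := QuotientGroup.mk' (Subgroup.zpowers φ)
  have hq : ∀ x, q x = 1 ↔ NN x := by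
    intro x
    rw [← hmem]
    exact QuotientGroup.eq_one_iff x
  have hcom : ∀ x y : MulAut A, NN (x * y * x⁻¹ * y⁻¹) ↔ Commute (q x) (q y) := by
    intro x y
    rw [← hq, map_mul, map_mul, map_mul, map_inv, map_inv]
    constructor
    · intro h
      have : q x * q y = q y * q x := by
        calc q x * q y = (q x * q y * (q x)⁻¹ * (q y)⁻¹) * (q y * q x) := by group
          _ = q y * q x := by rw [h, one_mul]
      exact this
    · intro h
      rw [h.eq]; group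
  let c : MulAut A → MulAut A := fun g => g * w * g⁻¹
  have hc1 : ∀ g, Commute (q w) (q (c g)) := fun g => (hcom _ _).1 (hw g)
  have hc : ∀ g h, Commute (q (c g)) (q (c h)) := by
    intro g h
    have h1 := hc1 (g⁻¹ * h)
    have h2 : q (c g) = q g * q w * (q g)⁻¹ := by simp [c]
    have h3 : q (c h) = q g * q (c (g⁻¹ * h)) * (q g)⁻¹ := by
      rw [← map_mul, ← map_inv, ← map_mul]
      congr 1
      simp only [c]; group
    rw [h2, h3, Commute.conj_iff]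
    exact h1
  apply S.NN_of_conj
  have e1 : MulAut.conj (w a * a⁻¹) = c 1 * (c (MulAut.conj a))⁻¹ := by
    rw [map_mul, map_inv, ← mulAut_conj_comm]; simp only [c]; group
  have e2 : MulAut.conj (g * (w a * a⁻¹) * g⁻¹)
      = c (MulAut.conj g) * (c (MulAut.conj g * MulAut.conj a))⁻¹ := by
    rw [map_mul, map_mul, map_inv, e1]; simp only [c]; group
  rw [map_mul, map_mul, map_mul, map_inv, map_inv, hcom, e1, e2, map_mul, map_mul, map_inv, map_inv]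
  exact (((hc _ _).mul_right ((hc _ _).inv_right))).mul_left
    (((hc _ _).inv_left.mul_right ((hc _ _).inv_left.inv_right)))

/-- `l`-coordinates on `E` -/
def l1 (y : A) : ℤ := (S.e y).left.l1
/-- `l`-coordinates on `E` -/
def l2 (y : A) : ℤ := (S.e y).left.l2

theorem e_mul_left {y y' : A} (hy : y ∈ S.E) (hy' : y' ∈ S.E) :
    (S.e (y * y')).left = (S.e y).left * (S.e y').left := by
  rw [S.e_mul _ hy _ hy', S.e_eq hy, S.e_eq hy', ← map_mul]; simp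

theorem e_inv_left {y : A} (hy : y ∈ S.E) : (S.e y⁻¹).left = (S.e y).left⁻¹ := by
  rw [S.e_inv hy, S.e_eq hy, ← map_inv]; simp

theorem e_zpow_left {y : A} (hy : y ∈ S.E) (k : ℤ) : (S.e (y ^ k)).left = (S.e y).left ^ k := by
  rw [S.e_zpow hy, S.e_eq hy, ← map_zpow, left_inl, left_inl]

theorem l1_mul {y y' : A} (hy : y ∈ S.E) (hy' : y' ∈ S.E) : S.l1 (y * y') = S.l1 y + S.l1 y' := by
  simp [l1, S.e_mul_left hy hy']
theorem l2_mul {y y' : A} (hy : y ∈ S.E) (hy' : y' ∈ S.E) : S.l2 (y * y') = S.l2 y + S.l2 y' := by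
  simp [l2, S.e_mul_left hy hy']
theorem l1_inv {y : A} (hy : y ∈ S.E) : S.l1 y⁻¹ = - S.l1 y := by
  simp [l1, S.e_inv_left hy]
theorem l2_inv {y : A} (hy : y ∈ S.E) : S.l2 y⁻¹ = - S.l2 y := by
  simp [l2, S.e_inv_left hy]
theorem l1_zpow {y : A} (hy : y ∈ S.E) (k : ℤ) : S.l1 (y ^ k) = k * S.l1 y := by
  simp [l1, S.e_zpow_left hy, zpow_l1]
theorem l2_zpow {y : A} (hy : y ∈ S.E) (k : ℤ) : S.l2 (y ^ k) = k * S.l2 y := by
  simp [l2, S.e_zpow_left hy, zpow_l2]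

theorem mem_M_iff {y : A} : y ∈ S.M ↔ y ∈ S.E ∧ S.l1 y = 0 ∧ S.l2 y = 0 := Iff.rfl

/-- first generator -/
def X1 : A := S.j (inl ⟨1, 0, 0, 0, 0, 0⟩)
/-- second generator -/
def X2 : A := S.j (inl ⟨0, 1, 0, 0, 0, 0⟩)

theorem X1_mem : S.X1 ∈ S.E := S.jU_mem _
theorem X2_mem : S.X2 ∈ S.E := S.jU_mem _
theorem l1_X1 : S.l1 S.X1 = 1 := by simp [l1, X1, S.e_j]
theorem l2_X1 : S.l2 S.X1 = 0 := by simp [l2, X1, S.e_j]
theorem l1_X2 : S.l1 S.X2 = 0 := by simp [l1, X2, S.e_j]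
theorem l2_X2 : S.l2 S.X2 = 1 := by simp [l2, X2, S.e_j]

theorem decomp {y : A} (hy : y ∈ S.E) : ∃ m ∈ S.M, y = S.X1 ^ (S.l1 y) * S.X2 ^ (S.l2 y) * m := by
  have h1 := S.E.zpow_mem S.X1_mem (S.l1 y)
  have h2 := S.E.zpow_mem S.X2_mem (S.l2 y)
  have h3 := S.E.mul_mem h1 h2
  refine ⟨(S.X1 ^ (S.l1 y) * S.X2 ^ (S.l2 y))⁻¹ * y, ?_, by group⟩
  rw [mem_M_iff]
  refine ⟨S.E.mul_mem (S.E.inv_mem h3) hy, ?_, ?_⟩
  · rw [S.l1_mul (S.E.inv_mem h3) hy, S.l1_inv h3, S.l1_mul h1 h2, S.l1_zpow S.X1_mem,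
      S.l1_zpow S.X2_mem, S.l1_X1, S.l1_X2]; ring
  · rw [S.l2_mul (S.E.inv_mem h3) hy, S.l2_inv h3, S.l2_mul h1 h2, S.l2_zpow S.X1_mem,
      S.l2_zpow S.X2_mem, S.l2_X1, S.l2_X2]; ring

theorem e_conj_inr (g : GL2) {y : A} (hy : y ∈ S.E) :
    (S.e (S.j (inr g) * y * (S.j (inr g))⁻¹)).left = actHom ℚ g (S.e y).left := by
  rw [S.e_conj _ _ hy, S.e_eq hy]
  simp [-actHom_apply]

theorem j_conj (g : GL2) (u : UU ℤ) :
    S.j (inr g) * S.j (inl u) * (S.j (inr g))⁻¹ = S.j (inl (actHom ℤ g u)) := by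
  rw [← map_mul, ← map_inv, ← map_mul, inl_aut]; simp

theorem conjw (w : MulAut A) (b : BB ℤ) (y : A) : w (S.j b * y * (S.j b)⁻¹) =
    (w (S.j b) * (S.j b)⁻¹) * (S.j b * w y * (S.j b)⁻¹) * (w (S.j b) * (S.j b)⁻¹)⁻¹ := by
  rw [map_mul, map_mul, map_inv]; group

/-- automorphisms in `EE` preserve the `l`-coordinates -/
theorem E3 (φ : MulAut A) (hφ : ∀ y : MulAut A, NN y ↔ ∃ k : ℤ, y = φ ^ k) {w : MulAut A}
    (hw : EE w) {y : A} (hy : y ∈ S.E) : S.l1 (w y) = S.l1 y ∧ S.l2 (w y) = S.l2 y := by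
  have hv : ∀ g : GL2, w (S.j (inr g)) * (S.j (inr g))⁻¹ ∈ S.E := fun g => S.E1 φ hφ hw _
  have hg : ∀ (g : GL2) (y : A), y ∈ S.E →
      S.l1 (w (S.j (inr g) * y * (S.j (inr g))⁻¹)) = (actHom ℚ g (S.e (w y)).left).l1 ∧
      S.l2 (w (S.j (inr g) * y * (S.j (inr g))⁻¹)) = (actHom ℚ g (S.e (w y)).left).l2 := by
    intro g y hy
    have hwy := S.map_E w hy
    have h1 := S.conj_E (S.j (inr g)) hwy
    rw [S.conjw, S.l1_mul (S.E.mul_mem (hv g) h1) (S.E.inv_mem (hv g)), S.l1_mul (hv g) h1,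
      S.l1_inv (hv g), S.l2_mul (S.E.mul_mem (hv g) h1) (S.E.inv_mem (hv g)), S.l2_mul (hv g) h1,
      S.l2_inv (hv g)]
    have h2 := S.e_conj_inr g hwy
    constructor
    · have : S.l1 (S.j (inr g) * w y * (S.j (inr g))⁻¹) = (actHom ℚ g (S.e (w y)).left).l1 := by
        rw [← h2]; rfl
      rw [this]; ring
    · have : S.l2 (S.j (inr g) * w y * (S.j (inr g))⁻¹) = (actHom ℚ g (S.e (w y)).left).l2 := by
        rw [← h2]; rfl
      rw [this]; ring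
  have fT : S.j (inr gT) * S.X1 * (S.j (inr gT))⁻¹ = S.X1 := by
    rw [X1, S.j_conj]
    congr 2
  have fS : S.j (inr gS) * S.X1 * (S.j (inr gS))⁻¹ = S.X2 := by
    rw [X1, X2, S.j_conj]
    congr 2
  have hT := (hg gT S.X1 S.X1_mem).1
  rw [fT, act_gT] at hT
  have hl2 : S.l2 (w S.X1) = 0 := by
    have : S.l1 (w S.X1) = (S.e (w S.X1)).left.l1 := rfl
    rw [this] at hT
    have h3 : S.l2 (w S.X1) = (S.e (w S.X1)).left.l2 := rfl
    rw [h3]
    simp only at hT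
    omega
  have hwX1 := S.map_E w S.X1_mem
  have hl1 : S.l1 (w S.X1) = 1 := by
    obtain ⟨α, hα⟩ : ∃ α, α = S.l1 (w S.X1) := ⟨_, rfl⟩
    have hx := S.E.mul_mem S.X1_mem (S.E.inv_mem hwX1)
    obtain ⟨m, hm, hxm⟩ := S.decomp hx
    have hlx1 : S.l1 (S.X1 * (w S.X1)⁻¹) = 1 - α := by
      rw [S.l1_mul S.X1_mem (S.E.inv_mem hwX1), S.l1_inv hwX1, S.l1_X1, ← hα]; ring
    have hlx2 : S.l2 (S.X1 * (w S.X1)⁻¹) = 0 := by
      rw [S.l2_mul S.X1_mem (S.E.inv_mem hwX1), S.l2_inv hwX1, S.l2_X1, hl2]; ring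
    obtain ⟨q, hq, hqM⟩ := S.NN_e (S.E2 hw S.X1)
    have h5 : S.l1 (w (S.X1 * (w S.X1)⁻¹) * (S.X1 * (w S.X1)⁻¹)⁻¹) = 0 := hqM.2.1
    rw [S.l1_mul (S.map_E w hx) (S.E.inv_mem hx), S.l1_inv hx, hlx1] at h5
    rw [hlx1, hlx2, zpow_zero, mul_one] at hxm
    have hwm := S.map_M w hm
    have h6 : S.l1 (w (S.X1 * (w S.X1)⁻¹)) = (1 - α) * α := by
      rw [hxm, map_mul, map_zpow, S.l1_mul (S.E.zpow_mem hwX1 _) hwm.1, S.l1_zpow hwX1, ← hα]
      have : S.l1 (w m) = 0 := hwm.2.1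
      rw [this, add_zero]
    rw [h6] at h5
    have h7 : (1 - α) * (1 - α) = 0 := by linarith
    have := mul_self_eq_zero.1 h7
    rw [← hα]; linarith
  have hS := hg gS S.X1 S.X1_mem
  rw [fS, act_gS] at hS
  have hw1 : (S.e (w S.X1)).left.l1 = 1 := hl1
  have hw2 : (S.e (w S.X1)).left.l2 = 0 := hl2
  simp only [hw1, hw2] at hS
  have hwX2 := S.map_E w S.X2_mem
  obtain ⟨m, hm, hym⟩ := S.decomp hy
  have hwm := S.map_M w hm
  have hm1 : S.l1 (w m) = 0 := hwm.2.1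
  have hm2 : S.l2 (w m) = 0 := hwm.2.2
  have e1 : w y = (w S.X1) ^ (S.l1 y) * (w S.X2) ^ (S.l2 y) * w m := by
    nth_rewrite 1 [hym]
    rw [map_mul, map_mul, map_zpow, map_zpow]
  have z1 := S.E.zpow_mem hwX1 (S.l1 y)
  have z2 := S.E.zpow_mem hwX2 (S.l2 y)
  constructor
  · rw [e1, S.l1_mul (S.E.mul_mem z1 z2) hwm.1, S.l1_mul z1 z2, S.l1_zpow hwX1, S.l1_zpow hwX2, hl1,
      hS.1, hm1]; ring
  · rw [e1, S.l2_mul (S.E.mul_mem z1 z2) hwm.1, S.l2_mul z1 z2, S.l2_zpow hwX1, S.l2_zpow hwX2, hl2,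
      hS.2, hm2]; ring

end Stage

end Pool.Agent.Helper886.Tower
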