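import Mathlib
import Pool.Agent.Helper886.Tower.Step1

set_option autoImplicit false

namespace Pool.Agent.Helper886.Tower

open SemidirectProduct Matrix

theorem uu_cmm {R : Type} [CommRing R] (u v : UU R) : u * v * u⁻¹ * v⁻¹ =
    ⟨0, 0, 3 * (u.l1 * v.l2 - u.l2 * v.l1), 0, 0, 3 * (u.l1 * v.l2 - u.l2 * v.l1)⟩ := by
  ext <;> simp <;> ring

namespace Stage

variable {n : ℕ} {A : Type} [Group A] (S : Stage n A)

theorem M_left {m : A} (hm : m ∈ S.M) : (S.e m).left =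
    ⟨0, 0, (S.e m).left.x11, (S.e m).left.x12, (S.e m).left.x21, (S.e m).left.x22⟩ := by
  ext
  · exact hm.2.1
  · exact hm.2.2
  · rfl
  · rfl
  · rfl
  · rfl

theorem M_zpow_left {m : A} (hm : m ∈ S.M) (k : ℤ) : (S.e (m ^ k)).left =
    ⟨0, 0, k * (S.e m).left.x11, k * (S.e m).left.x12, k * (S.e m).left.x21,
      k * (S.e m).left.x22⟩ := by
  rw [S.e_zpow_left hm.1, S.M_left hm, mk_zpow]

theorem left_inj {y y' : A} (hy : y ∈ S.E) (hy' : y' ∈ S.E) (h : (S.e y).left = (S.e y').left) :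
    y = y' := by
  apply S.e_inj' hy hy'
  rw [S.e_eq hy, S.e_eq hy', h]

theorem j_left (u : UU ℤ) : (S.e (S.j (inl u))).left = castU u := by
  rw [S.e_j, left_inl]

theorem j_mem_M {u : UU ℤ} (h1 : u.l1 = 0) (h2 : u.l2 = 0) : S.j (inl u) ∈ S.M := by
  refine ⟨S.jU_mem u, ?_, ?_⟩
  · rw [S.j_left]; simpa using h1
  · rw [S.j_left]; simpa using h2

/-- automorphisms in `EE` fix `M` pointwise -/
theorem E4 (φ : MulAut A) (hφ : ∀ y : MulAut A, NN y ↔ ∃ k : ℤ, y = φ ^ k) {w : MulAut A}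
    (hw : EE w) {m : A} (hm : m ∈ S.M) : w m = m := by
  have hv : ∀ g : GL2, w (S.j (inr g)) * (S.j (inr g))⁻¹ ∈ S.E := fun g => S.E1 φ hφ hw _
  have hW : ∀ (g : GL2) (m : A), m ∈ S.M → w (S.j (inr g) * m * (S.j (inr g))⁻¹) =
      S.j (inr g) * w m * (S.j (inr g))⁻¹ := by
    intro g m hm
    have h1 := S.conj_M (S.j (inr g)) (S.map_M w hm)
    rw [S.conjw, ← S.M_comm h1 (hv g)]; group
  have hWl : ∀ (g : GL2) (m : A), m ∈ S.M →
      (S.e (w (S.j (inr g) * m * (S.j (inr g))⁻¹))).left = actHom ℚ g (S.e (w m)).left := by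
    intro g m hm
    rw [hW g m hm, S.e_conj_inr g (S.map_M w hm).1]
  -- the element `E12`
  obtain ⟨m0, hm0⟩ : ∃ m0, m0 = S.j (inl ⟨0, 0, 0, 1, 0, 0⟩) := ⟨_, rfl⟩
  have m0M : m0 ∈ S.M := by rw [hm0]; exact S.j_mem_M rfl rfl
  have m0T : S.j (inr gT) * m0 * (S.j (inr gT))⁻¹ = m0 := by
    rw [hm0, S.j_conj]
    congr 2
  have m0E : S.j (inr gE) * m0 * (S.j (inr gE))⁻¹ = m0 := by
    rw [hm0, S.j_conj]
    congr 2
  have hwm0M := S.map_M w m0M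
  have m0l : (S.e m0).left = ⟨0, 0, 0, 1, 0, 0⟩ := by
    rw [hm0, S.j_left]; ext <;> simp
  obtain ⟨β, hβ⟩ : ∃ β : ℚ, β = (S.e (w m0)).left.x12 := ⟨_, rfl⟩
  have hs : (S.e (w m0)).left = ⟨0, 0, 0, β, 0, 0⟩ := by
    have hT := hWl gT m0 m0M
    have hE := hWl gE m0 m0M
    rw [m0T, act_gT] at hT
    rw [m0E, act_gE] at hE
    rw [UU.ext_iff] at hT hE
    simp only at hT hE
    obtain ⟨-, -, hT1, hT2, -, hT4⟩ := hT
    obtain ⟨-, -, hE1, -, -, hE4⟩ := hE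
    ext
    · exact hwm0M.2.1
    · exact hwm0M.2.2
    · show (S.e (w m0)).left.x11 = 0
      linarith
    · exact hβ.symm
    · show (S.e (w m0)).left.x21 = 0
      linarith
    · show (S.e (w m0)).left.x22 = 0
      linarith
  have hwwm0M := S.map_M w hwm0M
  have hββ : (S.e (w (w m0))).left.x12 = β ^ 2 := by
    have h1 : (w m0) ^ (β.den : ℤ) = m0 ^ β.num := by
      apply S.left_inj (S.M.zpow_mem hwm0M _).1 (S.M.zpow_mem m0M _).1
      rw [S.M_zpow_left hwm0M, S.M_zpow_left m0M, hs, m0l]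
      ext
      · rfl
      · rfl
      · simp
      · have := Rat.mul_den_eq_num β
        simp only [mul_one]
        rw [← this]; push_cast; ring
      · simp
      · simp
    have h2 := congrArg w h1
    rw [map_zpow, map_zpow] at h2
    have h3 : (S.e (w (w m0) ^ (β.den : ℤ))).left.x12 = (S.e (w m0 ^ β.num)).left.x12 := by
      rw [h2]
    rw [S.M_zpow_left hwwm0M, S.M_zpow_left hwm0M, hs] at h3
    simp only at h3
    have h4 : (β.den : ℚ) ≠ 0 := by exact_mod_cast β.den_nz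
    have h5 : (β.den : ℚ) * (S.e (w (w m0))).left.x12 = (β.den : ℚ) * β ^ 2 := by
      have := Rat.mul_den_eq_num β
      push_cast at h3
      rw [h3, ← this]; ring
    exact mul_left_cancel₀ h4 h5
  have hβ1 : β = 1 := by
    obtain ⟨q, hq, -⟩ := S.NN_e (S.E2 hw m0)
    have h1 := congrArg (fun x : BB ℚ => x.left.x12) hq
    have h2 : w (m0 * (w m0)⁻¹) * (m0 * (w m0)⁻¹)⁻¹ = w m0 * (w (w m0))⁻¹ * (w m0 * m0⁻¹) := by
      rw [map_mul, map_inv]; group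
    have i0 := S.M.inv_mem m0M
    have i1 := S.M.inv_mem hwwm0M
    have p1 := S.M.mul_mem hwm0M i1
    have p2 := S.M.mul_mem hwm0M i0
    rw [h2, S.e_mul_left p1.1 p2.1, S.e_mul_left hwm0M.1 i1.1, S.e_mul_left hwm0M.1 i0.1,
      S.e_inv_left hwwm0M.1, S.e_inv_left m0M.1, hs, m0l, S.M_left hwwm0M] at h1
    simp [hββ] at h1
    have h3 : (β - 1) * (β - 1) = 0 := by linear_combination -h1
    have := mul_self_eq_zero.1 h3
    linarith
  have f0 : w m0 = m0 := by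
    apply S.left_inj hwm0M.1 m0M.1
    rw [hs, m0l, hβ1]
  -- the other fixed elements
  obtain ⟨m1, hm1⟩ : ∃ m1, m1 = S.j (inl ⟨0, 0, 0, 0, -1, 0⟩) := ⟨_, rfl⟩
  have m1S : S.j (inr gS) * m0 * (S.j (inr gS))⁻¹ = m1 := by
    rw [hm0, hm1, S.j_conj]
    congr 2
  have m1M : m1 ∈ S.M := by rw [hm1]; exact S.j_mem_M rfl rfl
  have f1 : w m1 = m1 := by
    rw [← m1S, hW gS m0 m0M, f0]
  obtain ⟨m2, hm2⟩ : ∃ m2, m2 = S.j (inl ⟨0, 0, -1, 1, -1, 1⟩) := ⟨_, rfl⟩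
  have m2T : S.j (inr gT) * m1 * (S.j (inr gT))⁻¹ = m2 := by
    rw [hm1, hm2, S.j_conj]
    congr 2
  have m2M : m2 ∈ S.M := by rw [hm2]; exact S.j_mem_M rfl rfl
  have f2 : w m2 = m2 := by
    rw [← m2T, hW gT m1 m1M, f1]
  obtain ⟨m3, hm3⟩ : ∃ m3, m3 = S.j (inl ⟨0, 0, 3, 0, 0, 3⟩) := ⟨_, rfl⟩
  have m3M : m3 ∈ S.M := by rw [hm3]; exact S.j_mem_M rfl rfl
  have m3c : m3 = S.X1 * S.X2 * S.X1⁻¹ * S.X2⁻¹ := by
    rw [hm3, X1, X2, ← map_mul, ← map_inv, ← map_mul, ← map_inv, ← map_mul, ← map_mul, ← map_inv,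
      ← map_mul, ← map_inv, ← map_mul, uu_cmm]
    simp
  have f3 : w m3 = m3 := by
    have a1 := S.map_E w S.X1_mem
    have a2 := S.map_E w S.X2_mem
    have l11 := (S.E3 φ hφ hw S.X1_mem).1
    have l12 := (S.E3 φ hφ hw S.X1_mem).2
    have l21 := (S.E3 φ hφ hw S.X2_mem).1
    have l22 := (S.E3 φ hφ hw S.X2_mem).2
    apply S.left_inj (S.map_M w m3M).1 m3M.1
    have e1 : w m3 = w S.X1 * w S.X2 * (w S.X1)⁻¹ * (w S.X2)⁻¹ := by
      rw [m3c]; simp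
    have b1 := S.E.mul_mem a1 a2
    have b2 := S.E.mul_mem b1 (S.E.inv_mem a1)
    rw [e1, S.e_mul_left b2 (S.E.inv_mem a2), S.e_mul_left b1 (S.E.inv_mem a1), S.e_mul_left a1 a2,
      S.e_inv_left a1, S.e_inv_left a2, uu_cmm, hm3, S.j_left]
    have c11 : (S.e (w S.X1)).left.l1 = 1 := by rw [← S.l1_X1]; exact l11
    have c12 : (S.e (w S.X1)).left.l2 = 0 := by rw [← S.l2_X1]; exact l12
    have c21 : (S.e (w S.X2)).left.l1 = 0 := by rw [← S.l1_X2]; exact l21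
    have c22 : (S.e (w S.X2)).left.l2 = 1 := by rw [← S.l2_X2]; exact l22
    rw [c11, c12, c21, c22]
    ext <;> simp
  -- general element
  obtain ⟨a, ha⟩ : ∃ a, a = (S.e m).left.x11 := ⟨_, rfl⟩
  obtain ⟨b, hb⟩ : ∃ b, b = (S.e m).left.x12 := ⟨_, rfl⟩
  obtain ⟨c, hc⟩ : ∃ c, c = (S.e m).left.x21 := ⟨_, rfl⟩
  obtain ⟨d, hd⟩ : ∃ d, d = (S.e m).left.x22 := ⟨_, rfl⟩
  have hml : (S.e m).left = ⟨0, 0, a, b, c, d⟩ := by rw [S.M_left hm, ← ha, ← hb, ← hc, ← hd]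
  obtain ⟨D, hD⟩ : ∃ D : ℤ, D = a.den * b.den * c.den * d.den := ⟨_, rfl⟩
  have hD0 : (D : ℚ) ≠ 0 := by
    rw [hD]; push_cast
    have h1 : (a.den : ℚ) ≠ 0 := by exact_mod_cast a.den_nz
    have h2 : (b.den : ℚ) ≠ 0 := by exact_mod_cast b.den_nz
    have h3 : (c.den : ℚ) ≠ 0 := by exact_mod_cast c.den_nz
    have h4 : (d.den : ℚ) ≠ 0 := by exact_mod_cast d.den_nz
    positivity
  obtain ⟨α', hα'⟩ : ∃ α' : ℤ, (α' : ℚ) = D * a := by
    refine ⟨a.num * b.den * c.den * d.den, ?_⟩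
    rw [hD]; push_cast; rw [← Rat.mul_den_eq_num a]; ring
  obtain ⟨β', hβ'⟩ : ∃ β' : ℤ, (β' : ℚ) = D * b := by
    refine ⟨b.num * a.den * c.den * d.den, ?_⟩
    rw [hD]; push_cast; rw [← Rat.mul_den_eq_num b]; ring
  obtain ⟨γ', hγ'⟩ : ∃ γ' : ℤ, (γ' : ℚ) = D * c := by
    refine ⟨c.num * a.den * b.den * d.den, ?_⟩
    rw [hD]; push_cast; rw [← Rat.mul_den_eq_num c]; ring
  obtain ⟨δ', hδ'⟩ : ∃ δ' : ℤ, (δ' : ℚ) = D * d := by
    refine ⟨d.num * a.den * b.den * c.den, ?_⟩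
    rw [hD]; push_cast; rw [← Rat.mul_den_eq_num d]; ring
  have n0 : (S.e m0).left = ⟨0, 0, 0, 1, 0, 0⟩ := m0l
  have n1 : (S.e m1).left = ⟨0, 0, 0, 0, -1, 0⟩ := by rw [hm1, S.j_left]; ext <;> simp
  have n2 : (S.e m2).left = ⟨0, 0, -1, 1, -1, 1⟩ := by rw [hm2, S.j_left]; ext <;> simp
  have n3 : (S.e m3).left = ⟨0, 0, 3, 0, 0, 3⟩ := by rw [hm3, S.j_left]; ext <;> simp
  have q0 := S.M.zpow_mem m0M (3 * (α' - δ') + 6 * β')
  have q1 := S.M.zpow_mem m1M (3 * (α' - δ') - 6 * γ')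
  have q2 := S.M.zpow_mem m2M (-3 * (α' - δ'))
  have q3 := S.M.zpow_mem m3M (α' + δ')
  have hpow : m ^ (6 * D) = m3 ^ (α' + δ') * m2 ^ (-3 * (α' - δ')) * m0 ^ (3 * (α' - δ') + 6 * β')
      * m1 ^ (3 * (α' - δ') - 6 * γ') := by
    have q32 := S.M.mul_mem q3 q2
    have q320 := S.M.mul_mem q32 q0
    apply S.left_inj (S.M.zpow_mem hm _).1 (S.M.mul_mem q320 q1).1
    rw [S.e_mul_left q320.1 q1.1, S.e_mul_left q32.1 q0.1, S.e_mul_left q3.1 q2.1,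
      S.M_zpow_left hm, S.M_zpow_left m0M, S.M_zpow_left m1M, S.M_zpow_left m2M,
      S.M_zpow_left m3M, hml, n0, n1, n2, n3]
    ext
    · simp
    · simp
    · simp; linear_combination (-6 : ℚ) * hα'
    · simp; linear_combination (-6 : ℚ) * hβ'
    · simp; linear_combination (-6 : ℚ) * hγ'
    · simp; linear_combination (-6 : ℚ) * hδ'
  have hfix : w (m ^ (6 * D)) = m ^ (6 * D) := by
    rw [hpow, map_mul, map_mul, map_mul, map_zpow, map_zpow, map_zpow, map_zpow, f0, f1, f2, f3]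
  have hwm := S.map_M w hm
  rw [map_zpow] at hfix
  have h1 : (S.e (w m ^ (6 * D))).left = (S.e (m ^ (6 * D))).left := by rw [hfix]
  rw [S.M_zpow_left hwm, S.M_zpow_left hm] at h1
  rw [UU.ext_iff] at h1
  obtain ⟨-, -, g1, g2, g3, g4⟩ := h1
  simp only at g1 g2 g3 g4
  have h6 : ((6 * D : ℤ) : ℚ) ≠ 0 := by push_cast; exact mul_ne_zero (by norm_num) hD0
  apply S.left_inj hwm.1 hm.1
  rw [S.M_left hwm, S.M_left hm, mul_left_cancel₀ h6 g1, mul_left_cancel₀ h6 g2,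
    mul_left_cancel₀ h6 g3, mul_left_cancel₀ h6 g4]

end Stage

end Pool.Agent.Helper886.Tower
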