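import Mathlib
import Pool.Agent.Helper886.Tower.Step2

set_option autoImplicit false

namespace Pool.Agent.Helper886.Tower

open SemidirectProduct Matrix

theorem coe_gF : ((gS * gT : GL2) : Matrix (Fin 2) (Fin 2) ℤ) = !![0, -1; 1, 1] := by
  rw [Units.val_mul, coe_gS, coe_gT]; ext i j; fin_cases i <;> fin_cases j <;> simp

theorem act_gF (u : UU ℚ) : actHom ℚ (gS * gT) u =
    ⟨-u.l2, u.l1 + u.l2, -u.x21 + u.x22, -u.x21, u.x11 + u.x21 - u.x12 - u.x22, u.x11 + u.x21⟩ := by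
  rw [actHom_apply, coe_gF]
  ext <;> (simp [UU.act]; try ring)

namespace Stage

variable {n : ℕ} {A : Type} [Group A] (S : Stage n A)

/-- Automorphisms acting trivially on `E` and on `A / M`. -/
def D (θ : MulAut A) : Prop := (∀ y ∈ S.E, θ y = y) ∧ ∀ a : A, θ a * a⁻¹ ∈ S.M

theorem D_one : S.D 1 := by
  refine ⟨fun y _ => rfl, fun a => ?_⟩
  simpa using S.M.one_mem

theorem D_mul {θ θ' : MulAut A} (h : S.D θ) (h' : S.D θ') : S.D (θ * θ') := by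
  refine ⟨fun y hy => ?_, fun a => ?_⟩
  · rw [MulAut.mul_apply, h'.1 y hy, h.1 y hy]
  · have e : (θ * θ') a * a⁻¹ = (θ (θ' a) * (θ' a)⁻¹) * (θ' a * a⁻¹) := by
      rw [MulAut.mul_apply]; group
    rw [e]
    exact S.M.mul_mem (h.2 _) (h'.2 _)

theorem D_inv {θ : MulAut A} (h : S.D θ) : S.D θ⁻¹ := by
  refine ⟨fun y hy => ?_, fun a => ?_⟩
  · have h1 := congrArg (θ⁻¹ : MulAut A) (h.1 y hy)
    rw [MulAut.inv_apply_self] at h1
    exact h1.symm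
  · have h1 := h.2 (θ⁻¹ a)
    rw [MulAut.apply_inv_self] at h1
    have := S.M.inv_mem h1
    simpa using this

theorem D_conj {θ : MulAut A} (h : S.D θ) (g : MulAut A) : S.D (g * θ * g⁻¹) := by
  refine ⟨fun y hy => ?_, fun a => ?_⟩
  · show g (θ (g⁻¹ y)) = y
    rw [h.1 _ (S.map_E g⁻¹ hy), MulAut.apply_inv_self]
  · have h1 := S.map_M g (h.2 (g⁻¹ a))
    have e : (g * θ * g⁻¹) a * a⁻¹ = g (θ (g⁻¹ a) * (g⁻¹ a)⁻¹) := by
      rw [map_mul, map_inv, MulAut.apply_inv_self]; rfl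
    rw [e]; exact h1

theorem D_comm {θ θ' : MulAut A} (h : S.D θ) (h' : S.D θ') : θ * θ' = θ' * θ := by
  ext a
  show θ (θ' a) = θ' (θ a)
  have e1 : θ (θ' a) = (θ' a * a⁻¹) * ((θ a * a⁻¹) * a) := by
    calc θ (θ' a) = θ ((θ' a * a⁻¹) * a) := by simp
      _ = (θ' a * a⁻¹) * θ a := by rw [map_mul, h.1 _ (h'.2 a).1]
      _ = _ := by group
  have e2 : θ' (θ a) = (θ a * a⁻¹) * ((θ' a * a⁻¹) * a) := by
    calc θ' (θ a) = θ' ((θ a * a⁻¹) * a) := by simp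
      _ = (θ a * a⁻¹) * θ' a := by rw [map_mul, h'.1 _ (h.2 a).1]
      _ = _ := by group
  have c := S.M_comm (h'.2 a) (h.2 a).1
  calc θ (θ' a) = (θ' a * a⁻¹) * (θ a * a⁻¹) * a := by rw [e1]; group
    _ = (θ a * a⁻¹) * (θ' a * a⁻¹) * a := by rw [c]
    _ = θ' (θ a) := by rw [e2]; group

theorem D_conj_comm {θ : MulAut A} (h : S.D θ) {y : A} (hy : y ∈ S.E) :
    θ * MulAut.conj y = MulAut.conj y * θ := by
  have h1 := mulAut_conj_comm θ y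
  rw [h.1 y hy] at h1
  calc θ * MulAut.conj y = (θ * MulAut.conj y * θ⁻¹) * θ := by group
    _ = _ := by rw [h1]

theorem cmm_z {y y' : A} (hy : y ∈ S.E) (hy' : y' ∈ S.E) :
    y * y' * y⁻¹ * y'⁻¹ = S.z ^ ((2 : ℤ) ^ n * (3 * (S.l1 y * S.l2 y' - S.l2 y * S.l1 y'))) := by
  have b1 := S.E.mul_mem hy hy'
  have b2 := S.E.mul_mem b1 (S.E.inv_mem hy)
  apply S.left_inj (S.E.mul_mem b2 (S.E.inv_mem hy')) (S.E.zpow_mem S.z_mem _)
  rw [S.e_mul_left b2 (S.E.inv_mem hy'), S.e_mul_left b1 (S.E.inv_mem hy), S.e_mul_left hy hy',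
    S.e_inv_left hy, S.e_inv_left hy', uu_cmm, S.e_zk, left_inl]
  have h2 : ((2 : ℚ) ^ n) * (1 / 2) ^ n = 1 := by
    rw [← mul_pow]; norm_num
  ext
  · rfl
  · rfl
  · push_cast; simp only [l1, l2]; linear_combination (-(3 * (((S.e y).left.l1 : ℚ) * (S.e y').left.l2
      - (S.e y).left.l2 * (S.e y').left.l1))) * h2
  · rfl
  · rfl
  · push_cast; simp only [l1, l2]; linear_combination (-(3 * (((S.e y).left.l1 : ℚ) * (S.e y').left.l2
      - (S.e y).left.l2 * (S.e y').left.l1))) * h2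

/-- each element of `EE` is an inner automorphism by an element of `E` times an element of `D` -/
theorem E5 (φ : MulAut A) (hφ : ∀ y : MulAut A, NN y ↔ ∃ k : ℤ, y = φ ^ k) {w : MulAut A}
    (hw : EE w) : ∃ y ∈ S.E, ∃ θ, S.D θ ∧ w = MulAut.conj y * θ := by
  have hv : ∀ g : GL2, w (S.j (inr g)) * (S.j (inr g))⁻¹ ∈ S.E := fun g => S.E1 φ hφ hw _
  have a1 := S.map_E w S.X1_mem
  have a2 := S.map_E w S.X2_mem
  have c11 : (S.e (w S.X1)).left.l1 = 1 := by rw [← S.l1_X1]; exact (S.E3 φ hφ hw S.X1_mem).1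
  have c12 : (S.e (w S.X1)).left.l2 = 0 := by rw [← S.l2_X1]; exact (S.E3 φ hφ hw S.X1_mem).2
  have c21 : (S.e (w S.X2)).left.l1 = 0 := by rw [← S.l1_X2]; exact (S.E3 φ hφ hw S.X2_mem).1
  have c22 : (S.e (w S.X2)).left.l2 = 1 := by rw [← S.l2_X2]; exact (S.E3 φ hφ hw S.X2_mem).2
  -- conjugation formula for left parts
  have hcl : ∀ (g : GL2) (y : A), y ∈ S.E →
      (S.e (w (S.j (inr g) * y * (S.j (inr g))⁻¹))).left =
      (S.e (w (S.j (inr g)) * (S.j (inr g))⁻¹)).left * actHom ℚ g (S.e (w y)).left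
        * ((S.e (w (S.j (inr g)) * (S.j (inr g))⁻¹)).left)⁻¹ := by
    intro g y hy
    have hwy := S.map_E w hy
    have h1 := S.conj_E (S.j (inr g)) hwy
    rw [S.conjw, S.e_mul_left (S.E.mul_mem (hv g) h1) (S.E.inv_mem (hv g)),
      S.e_mul_left (hv g) h1, S.e_inv_left (hv g), S.e_conj_inr g hwy]
  -- the matrix `-1`
  have fM1 : S.j (inr gM) * S.X1 * (S.j (inr gM))⁻¹ = S.X1⁻¹ * S.j (inl ⟨0, 0, 0, 3, 0, 0⟩) := by
    rw [X1, S.j_conj, ← map_inv, ← map_inv, ← map_mul, ← map_mul]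
    congr 2
  have fM2 : S.j (inr gM) * S.X2 * (S.j (inr gM))⁻¹ = S.X2⁻¹ * S.j (inl ⟨0, 0, 0, 0, -3, 0⟩) := by
    rw [X2, S.j_conj, ← map_inv, ← map_inv, ← map_mul, ← map_mul]
    congr 2
  have hM1 := hcl gM S.X1 S.X1_mem
  have hM2 := hcl gM S.X2 S.X2_mem
  have k1 : S.j (inl ⟨0, 0, 0, 3, 0, 0⟩) ∈ S.M := S.j_mem_M rfl rfl
  have k2 : S.j (inl ⟨0, 0, 0, 0, -3, 0⟩) ∈ S.M := S.j_mem_M rfl rfl
  rw [fM1, map_mul, map_inv, S.E4 φ hφ hw k1, S.e_mul_left (S.E.inv_mem a1) k1.1, S.e_inv_left a1,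
    S.j_left, act_gM, uu_conj] at hM1
  rw [fM2, map_mul, map_inv, S.E4 φ hφ hw k2, S.e_mul_left (S.E.inv_mem a2) k2.1, S.e_inv_left a2,
    S.j_left, act_gM, uu_conj] at hM2
  obtain ⟨P, hP⟩ : ∃ P, P = (S.e (w S.X1)).left := ⟨_, rfl⟩
  obtain ⟨Q, hQ⟩ : ∃ Q, Q = (S.e (w S.X2)).left := ⟨_, rfl⟩
  rw [← hP] at hM1 c11 c12
  rw [← hQ] at hM2 c21 c22
  rw [UU.ext_iff] at hM1 hM2
  simp [c11, c12] at hM1
  simp [c21, c22] at hM2
  obtain ⟨p1, p2, p3, p4⟩ := hM1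
  obtain ⟨q1, q2, q3, q4⟩ := hM2
  have hP' : P = ⟨1, 0, P.x11, 0, 0, P.x11⟩ := by
    ext
    · exact c11
    · exact c12
    · rfl
    · show P.x12 = 0
      linarith
    · show P.x21 = 0
      linarith
    · show P.x22 = P.x11
      linarith
  have hQ' : Q = ⟨0, 1, Q.x11, 0, 0, Q.x11⟩ := by
    ext
    · exact c21
    · exact c22
    · rfl
    · show Q.x12 = 0
      linarith
    · show Q.x21 = 0
      linarith
    · show Q.x22 = Q.x11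
      linarith
  obtain ⟨p, hp⟩ : ∃ p, p = P.x11 := ⟨_, rfl⟩
  obtain ⟨q, hq⟩ : ∃ q, q = Q.x11 := ⟨_, rfl⟩
  rw [← hp] at hP'
  rw [← hq] at hQ'
  -- the element of order 6
  have fF1 : S.j (inr (gS * gT)) * S.X1 * (S.j (inr (gS * gT)))⁻¹ = S.X2 := by
    rw [X1, X2, S.j_conj]
    congr 2
  have fF2 : S.j (inr (gS * gT)) * S.X2 * (S.j (inr (gS * gT)))⁻¹
      = S.X2 * S.X1⁻¹ * S.j (inl ⟨0, 0, 0, 3, 0, -3⟩) := by
    rw [X1, X2, S.j_conj, ← map_inv, ← map_inv, ← map_mul, ← map_mul, ← map_mul, ← map_mul]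
    congr 2
  have k3 : S.j (inl ⟨0, 0, 0, 3, 0, -3⟩) ∈ S.M := S.j_mem_M rfl rfl
  have hF1 := hcl (gS * gT) S.X1 S.X1_mem
  have hF2 := hcl (gS * gT) S.X2 S.X2_mem
  rw [fF1, act_gF, uu_conj, ← hP, ← hQ, hP', hQ'] at hF1
  rw [fF2, map_mul, map_mul, map_inv, S.E4 φ hφ hw k3,
    S.e_mul_left (S.E.mul_mem a2 (S.E.inv_mem a1)) k3.1, S.e_mul_left a2 (S.E.inv_mem a1),
    S.e_inv_left a1, S.j_left, act_gF, uu_conj, ← hP, ← hQ, hP', hQ'] at hF2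
  obtain ⟨t, ht⟩ : ∃ t, t = (S.e (w (S.j (inr (gS * gT))) * (S.j (inr (gS * gT)))⁻¹)).left :=
    ⟨_, rfl⟩
  rw [← ht] at hF1 hF2
  rw [UU.ext_iff] at hF1 hF2
  simp at hF1 hF2
  have hqt : q = p + 3 * t.l1 := hF1
  have hp2 : p = -3 * (t.l1 + t.l2) := by linarith
  have hq2 : q = -3 * t.l2 := by linarith
  -- the correcting element
  obtain ⟨y0, hy0⟩ : ∃ y0, y0 = S.j (inl ⟨-t.l2, t.l1 + t.l2, 0, 0, 0, 0⟩) := ⟨_, rfl⟩
  have y0E : y0 ∈ S.E := by rw [hy0]; exact S.jU_mem _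
  have y0l : (S.e y0).left = ⟨-t.l2, t.l1 + t.l2, 0, 0, 0, 0⟩ := by
    rw [hy0, S.j_left]; ext <;> simp
  have hθ : ∀ x, ((MulAut.conj y0)⁻¹ * w) x = y0⁻¹ * w x * y0 := by
    intro x
    rw [← map_inv, MulAut.mul_apply, MulAut.conj_apply]; simp
  have g1 : y0⁻¹ * w S.X1 * y0 = S.X1 := by
    apply S.left_inj (S.E.mul_mem (S.E.mul_mem (S.E.inv_mem y0E) a1) y0E) S.X1_mem
    rw [S.e_mul_left (S.E.mul_mem (S.E.inv_mem y0E) a1) y0E, S.e_mul_left (S.E.inv_mem y0E) a1,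
      S.e_inv_left y0E, y0l, ← hP, hP']
    have h1 := uu_conj (⟨-t.l2, t.l1 + t.l2, 0, 0, 0, 0⟩ : UU ℚ)⁻¹ ⟨1, 0, p, 0, 0, p⟩
    rw [inv_inv] at h1
    rw [h1, X1, S.j_left, hp2]
    ext <;> simp
  have g2 : y0⁻¹ * w S.X2 * y0 = S.X2 := by
    apply S.left_inj (S.E.mul_mem (S.E.mul_mem (S.E.inv_mem y0E) a2) y0E) S.X2_mem
    rw [S.e_mul_left (S.E.mul_mem (S.E.inv_mem y0E) a2) y0E, S.e_mul_left (S.E.inv_mem y0E) a2,
      S.e_inv_left y0E, y0l, ← hQ, hQ']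
    have h1 := uu_conj (⟨-t.l2, t.l1 + t.l2, 0, 0, 0, 0⟩ : UU ℚ)⁻¹ ⟨0, 1, q, 0, 0, q⟩
    rw [inv_inv] at h1
    rw [h1, X2, S.j_left, hq2]
    ext <;> simp
  have gm : ∀ m ∈ S.M, y0⁻¹ * w m * y0 = m := by
    intro m hm
    rw [S.E4 φ hφ hw hm, mul_assoc, S.M_comm hm y0E]; group
  refine ⟨y0, y0E, (MulAut.conj y0)⁻¹ * w, ⟨?_, ?_⟩, by group⟩
  · intro y hy
    obtain ⟨m, hm, hym⟩ := S.decomp hy
    nth_rewrite 1 [hym]
    rw [map_mul, map_mul, map_zpow, map_zpow, hθ, hθ, hθ, g1, g2, gm m hm]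
    exact hym.symm
  · intro a
    have hfix : ∀ y ∈ S.E, ((MulAut.conj y0)⁻¹ * w) y = y := by
      intro y hy
      obtain ⟨m, hm, hym⟩ := S.decomp hy
      nth_rewrite 1 [hym]
      rw [map_mul, map_mul, map_zpow, map_zpow, hθ, hθ, hθ, g1, g2, gm m hm]
      exact hym.symm
    apply S.mem_M_of_comm
    · have e1 : ((MulAut.conj y0)⁻¹ * w) a * a⁻¹ = y0⁻¹ * (w a * a⁻¹) * (a * y0 * a⁻¹) := by
        rw [hθ]; group
      rw [e1]
      exact S.E.mul_mem (S.E.mul_mem (S.E.inv_mem y0E) (S.E1 φ hφ hw a)) (S.conj_E a y0E)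
    · intro y hy
      have hy' : a⁻¹ * y * a ∈ S.E := by
        have := S.conj_E a⁻¹ hy
        simpa using this
      have h1 := hfix _ hy'
      obtain ⟨ψ, hψ⟩ : ∃ ψ, ψ = (MulAut.conj y0)⁻¹ * w := ⟨_, rfl⟩
      rw [← hψ] at h1 ⊢
      have h2 : ψ y = y := by rw [hψ]; exact hfix y hy
      rw [map_mul, map_mul, map_inv, h2] at h1
      have h3 : y = ψ a * (a⁻¹ * y * a) * (ψ a)⁻¹ := by rw [← h1]; group
      calc ψ a * a⁻¹ * y = (ψ a * (a⁻¹ * y * a) * (ψ a)⁻¹) * (ψ a * a⁻¹) := by group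
        _ = y * (ψ a * a⁻¹) := by rw [← h3]

/-- Characterisation of `EE` in the automorphism group. -/
theorem EE_iff (φ : MulAut A) (hφφ : φ * φ = MulAut.conj S.z)
    (hφ : ∀ y : MulAut A, NN y ↔ ∃ k : ℤ, y = φ ^ k) (w : MulAut A) :
    EE w ↔ ∃ y ∈ S.E, ∃ θ, S.D θ ∧ w = MulAut.conj y * θ := by
  constructor
  · intro hw
    exact S.E5 φ hφ hw
  · rintro ⟨y, hy, θ, hθ, rfl⟩ g
    have e1 : g * (MulAut.conj y * θ) * g⁻¹ = MulAut.conj (g y) * (g * θ * g⁻¹) := by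
      rw [← mulAut_conj_comm]; group
    obtain ⟨y', hy'⟩ : ∃ y', y' = g y := ⟨_, rfl⟩
    obtain ⟨θ', hθ'⟩ : ∃ θ', θ' = g * θ * g⁻¹ := ⟨_, rfl⟩
    have hy'E : y' ∈ S.E := by rw [hy']; exact S.map_E g hy
    have hθ'D : S.D θ' := by rw [hθ']; exact S.D_conj hθ g
    rw [e1, ← hy', ← hθ']
    have c1 := S.D_conj_comm hθ hy'E
    have c2 := S.D_conj_comm hθ'D hy
    have c3 := S.D_comm hθ hθ'D
    have c4 := S.D_conj_comm hθ hy
    have c5 := S.D_conj_comm hθ'D hy'E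
    have e2 : MulAut.conj y * θ * (MulAut.conj y' * θ') * (MulAut.conj y * θ)⁻¹ *
        (MulAut.conj y' * θ')⁻¹ = MulAut.conj (y * y' * y⁻¹ * y'⁻¹) := by
      rw [map_mul, map_mul, map_mul, map_inv, map_inv]
      have f1 : MulAut.conj y * θ * (MulAut.conj y' * θ')
          = (MulAut.conj y * MulAut.conj y') * (θ * θ') := by
        calc MulAut.conj y * θ * (MulAut.conj y' * θ')
            = MulAut.conj y * (θ * MulAut.conj y') * θ' := by group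
          _ = _ := by rw [c1]; group
      have f2 : MulAut.conj y' * θ' * (MulAut.conj y * θ)
          = (MulAut.conj y' * MulAut.conj y) * (θ * θ') := by
        calc MulAut.conj y' * θ' * (MulAut.conj y * θ)
            = MulAut.conj y' * (θ' * MulAut.conj y) * θ := by group
          _ = (MulAut.conj y' * MulAut.conj y) * (θ' * θ) := by rw [c2]; group
          _ = _ := by rw [c3]
      calc MulAut.conj y * θ * (MulAut.conj y' * θ') * (MulAut.conj y * θ)⁻¹ *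
            (MulAut.conj y' * θ')⁻¹
          = (MulAut.conj y * θ * (MulAut.conj y' * θ')) *
            (MulAut.conj y' * θ' * (MulAut.conj y * θ))⁻¹ := by group
        _ = _ := by rw [f1, f2]; group
    rw [e2, S.cmm_z hy hy'E, map_zpow, ← hφφ, hφ]
    refine ⟨2 * ((2 : ℤ) ^ n * (3 * (S.l1 y * S.l2 y' - S.l2 y * S.l1 y'))), ?_⟩
    rw [_root_.zpow_mul φ 2, zpow_two]

end Stage

end Pool.Agent.Helper886.Tower
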