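import Mathlib
import Pool.Agent.Helper886.Tower.Step3

set_option autoImplicit false

namespace Pool.Agent.Helper886.Tower

open SemidirectProduct Matrix

theorem cent_Q (r : BB ℚ) (hr : r.right = 1) (h : ∀ b, r * castB b = castB b * r) : r = 1 := by
  obtain ⟨u, hu⟩ : ∃ u, u = r.left := ⟨_, rfl⟩
  have hru : r = inl u := by
    apply SemidirectProduct.ext
    · rw [left_inl, hu]
    · rw [right_inl, hr]
  have key : ∀ g : GL2, actHom ℚ g u = u := by
    intro g
    have h1 := h (inr g)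
    have h2 : castB (inr g) = inr g := by
      apply SemidirectProduct.ext <;> simp
    rw [h2, hru] at h1
    have h3 : (inl (actHom ℚ g u) : BB ℚ) = inl u := by
      rw [inl_aut, ← h1]; simp
    exact inl_injective h3
  have kM := key gM
  have kE := key gE
  have kT := key gT
  have kS := key gS
  rw [act_gM, UU.ext_iff] at kM
  rw [act_gE, UU.ext_iff] at kE
  rw [act_gT, UU.ext_iff] at kT
  rw [act_gS, UU.ext_iff] at kS
  simp only at kM kE kT kS
  have hl1 : u.l1 = 0 := by omega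
  have hl2 : u.l2 = 0 := by omega
  obtain ⟨-, -, e1, -, -, e4⟩ := kE
  obtain ⟨-, -, t1, -, -, t4⟩ := kT
  obtain ⟨-, -, -, s2, -, -⟩ := kS
  have : u = 1 := by
    ext
    · exact hl1
    · exact hl2
    · show u.x11 = 0
      linarith
    · show u.x12 = 0
      linarith
    · show u.x21 = 0
      linarith
    · show u.x22 = 0
      linarith
  rw [hru, this, map_one]

namespace Stage

variable {n : ℕ} {A : Type} [Group A] (S : Stage n A)

/-- `w` acts on `E` and on `j(B)` (mod `E`) like conjugation by `q`. -/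
def Q (w : MulAut A) (q : BB ℚ) : Prop :=
  q.right = 1 ∧ (∀ b, w (S.j b) * (S.j b)⁻¹ ∈ S.E ∧
    S.e (w (S.j b) * (S.j b)⁻¹) = q * castB b * q⁻¹ * (castB b)⁻¹) ∧
    ∀ y ∈ S.E, S.e (w y) = q * S.e y * q⁻¹

theorem Q_mul {w w' : MulAut A} {q q' : BB ℚ} (h : S.Q w q) (h' : S.Q w' q') :
    S.Q (w * w') (q * q') := by
  refine ⟨by simp [h.1, h'.1], fun b => ?_, fun y hy => ?_⟩
  · have e1 : (w * w') (S.j b) * (S.j b)⁻¹
        = w (w' (S.j b) * (S.j b)⁻¹) * (w (S.j b) * (S.j b)⁻¹) := by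
      rw [MulAut.mul_apply, map_mul, map_inv]; group
    have m1 := (h'.2.1 b).1
    have m2 := S.map_E w m1
    rw [e1]
    refine ⟨S.E.mul_mem m2 (h.2.1 b).1, ?_⟩
    rw [S.e_mul _ m2 _ (h.2.1 b).1, h.2.2 _ m1, (h'.2.1 b).2, (h.2.1 b).2]
    group
  · rw [MulAut.mul_apply, h.2.2 _ (S.map_E w' hy), h'.2.2 _ hy]
    group

theorem Q_one : S.Q 1 1 := by
  refine ⟨by simp, fun b => ?_, fun y _ => ?_⟩
  · have : (1 : MulAut A) (S.j b) * (S.j b)⁻¹ = 1 := by
      rw [MulAut.one_apply, mul_inv_cancel]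
    rw [this]
    exact ⟨S.E.one_mem, by rw [S.e_one]; group⟩
  · rw [MulAut.one_apply]; group

theorem Q_inv {w : MulAut A} {q : BB ℚ} (h : S.Q w q) : S.Q w⁻¹ q⁻¹ := by
  have hy : ∀ y ∈ S.E, S.e (w⁻¹ y) = q⁻¹ * S.e y * q := by
    intro y hy
    have h1 := h.2.2 _ (S.map_E w⁻¹ hy)
    rw [MulAut.apply_inv_self] at h1
    rw [h1]; group
  refine ⟨by simp [h.1], fun b => ?_, fun y hy' => ?_⟩
  · have e1 : w⁻¹ (S.j b) * (S.j b)⁻¹ = w⁻¹ ((w (S.j b) * (S.j b)⁻¹)⁻¹) := by
      rw [_root_.mul_inv_rev, map_mul, inv_inv, map_inv, MulAut.inv_apply_self]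
    have m1 := S.E.inv_mem (h.2.1 b).1
    rw [e1]
    refine ⟨S.map_E w⁻¹ m1, ?_⟩
    rw [hy _ m1, S.e_inv (h.2.1 b).1, (h.2.1 b).2]
    group
  · rw [hy y hy']; group

theorem Q_eq_one {w : MulAut A} (h : S.Q w 1) : w = 1 := by
  have h1 : ∀ b, w (S.j b) = S.j b := by
    intro b
    have h2 : w (S.j b) * (S.j b)⁻¹ = 1 := by
      apply S.e_inj _ (h.2.1 b).1
      rw [(h.2.1 b).2]; group
    exact mul_inv_eq_one.1 h2
  have h3 : w.toMonoidHom = MonoidHom.id A := by
    apply S.rig A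
    · intro b
      exact h1 b
    · intro x hx
      apply S.cent
      intro b
      have := hx b
      have e1 : w.toMonoidHom (S.j b) = S.j b := h1 b
      rwa [e1] at this
  ext a
  exact congrArg (fun f : A →* A => f a) h3

theorem Q_uniq {w : MulAut A} {q q' : BB ℚ} (h : S.Q w q) (h' : S.Q w q') : q = q' := by
  have h1 := S.Q_mul h (S.Q_inv h')
  rw [mul_inv_cancel] at h1
  have h2 : q * q'⁻¹ = 1 := by
    apply cent_Q _ h1.1
    intro b
    have h3 := (h1.2.1 b).2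
    rw [MulAut.one_apply, mul_inv_cancel, S.e_one] at h3
    calc (q * q'⁻¹) * castB b = ((q * q'⁻¹) * castB b * (q * q'⁻¹)⁻¹ * (castB b)⁻¹)
          * (castB b * (q * q'⁻¹)) := by group
      _ = castB b * (q * q'⁻¹) := by rw [← h3, one_mul]
  exact mul_inv_eq_one.1 h2

theorem Q_conj {y : A} (hy : y ∈ S.E) : S.Q (MulAut.conj y) (S.e y) := by
  refine ⟨S.e_right y hy, fun b => ?_, fun y' hy' => ?_⟩
  · have e1 : MulAut.conj y (S.j b) * (S.j b)⁻¹ = y * (S.j b * y⁻¹ * (S.j b)⁻¹) := by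
      rw [MulAut.conj_apply]; group
    have m1 := S.conj_E (S.j b) (S.E.inv_mem hy)
    rw [e1]
    refine ⟨S.E.mul_mem hy m1, ?_⟩
    rw [S.e_mul _ hy _ m1, S.e_conj _ _ (S.E.inv_mem hy), S.e_inv hy]
    group
  · rw [MulAut.conj_apply, S.e_mul _ (S.E.mul_mem hy hy') _ (S.E.inv_mem hy), S.e_mul _ hy _ hy',
      S.e_inv hy]

theorem Q_D {θ : MulAut A} (h : S.D θ) :
    ∃ X : UU ℚ, X.l1 = 0 ∧ X.l2 = 0 ∧ S.Q θ (inl X) := by
  let c : BB ℤ → UU ℚ := fun b => (S.e (θ (S.j b) * (S.j b)⁻¹)).left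
  have hc : ∀ b b', c (b * b') = c b * (S.e (S.j b * (θ (S.j b') * (S.j b')⁻¹) * (S.j b)⁻¹)).left := by
    intro b b'
    have e1 : θ (S.j (b * b')) * (S.j (b * b'))⁻¹
        = (θ (S.j b) * (S.j b)⁻¹) * (S.j b * (θ (S.j b') * (S.j b')⁻¹) * (S.j b)⁻¹) := by
      rw [map_mul, map_mul]; group
    show (S.e (θ (S.j (b * b')) * (S.j (b * b'))⁻¹)).left = _
    rw [e1, S.e_mul_left (h.2 _).1 (S.conj_E _ (h.2 _).1)]
  obtain ⟨X, hX1, hX2, hX⟩ := coc (fun g => c (inr g)) (fun g => (h.2 _).2.1)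
    (fun g => (h.2 _).2.2) (by
      intro g g'
      show c (inr (g * g')) = c (inr g) * actHom ℚ g (c (inr g'))
      rw [map_mul, hc, S.e_conj_inr g (h.2 _).1])
  refine ⟨X, hX1, hX2, by simp, fun b => ?_, fun y hy => ?_⟩
  · refine ⟨(h.2 _).1, ?_⟩
    have hb : b = inl b.left * inr b.right := by simp
    have e1 : θ (S.j b) * (S.j b)⁻¹ = θ (S.j (inr b.right)) * (S.j (inr b.right))⁻¹ := by
      have e2 : θ (S.j b) = S.j (inl b.left) * θ (S.j (inr b.right)) := by
        conv_lhs => rw [hb, map_mul, map_mul, h.1 _ (S.jU_mem _)]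
      have e3 : (S.j b)⁻¹ = (S.j (inr b.right))⁻¹ * (S.j (inl b.left))⁻¹ := by
        conv_lhs => rw [hb, map_mul, _root_.mul_inv_rev]
      rw [e2, e3]
      have e4 := S.M_comm (h.2 (S.j (inr b.right))) (S.jU_mem b.left)
      calc S.j (inl b.left) * θ (S.j (inr b.right)) *
            ((S.j (inr b.right))⁻¹ * (S.j (inl b.left))⁻¹)
          = (S.j (inl b.left) * (θ (S.j (inr b.right)) * (S.j (inr b.right))⁻¹))
            * (S.j (inl b.left))⁻¹ := by group
        _ = _ := by rw [← e4]; group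
    have e5 : S.e (θ (S.j b) * (S.j b)⁻¹) = inl (X * (actHom ℚ b.right X)⁻¹) := by
      rw [e1, S.e_eq (h.2 _).1, ← hX b.right]
    have hcb : castB b = inl (castU b.left) * inr b.right := by
      apply SemidirectProduct.ext <;> simp
    rw [e5, hcb]
    have e6 : (inl X : BB ℚ) * (inl (castU b.left) * inr b.right) * (inl X)⁻¹ *
        (inl (castU b.left) * inr b.right)⁻¹
        = inl X * inl (castU b.left) * (inr b.right * inl X * (inr b.right)⁻¹)⁻¹
          * (inl (castU b.left))⁻¹ := by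
      group
    have e7 : (inr b.right * inl X * (inr b.right)⁻¹ : BB ℚ) = inl (actHom ℚ b.right X) := by
      rw [inl_aut]; simp
    rw [e6, e7, ← map_inv (inl : UU ℚ →* BB ℚ) (actHom ℚ b.right X),
      ← map_inv (inl : UU ℚ →* BB ℚ) (castU b.left), ← map_mul (inl : UU ℚ →* BB ℚ),
      ← map_mul (inl : UU ℚ →* BB ℚ), ← map_mul (inl : UU ℚ →* BB ℚ)]
    congr 1
    have hZl1 : ((actHom ℚ b.right X)⁻¹).l1 = 0 := by
      simp [UU.act, hX1, hX2]
    have hZl2 : ((actHom ℚ b.right X)⁻¹).l2 = 0 := by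
      simp [UU.act, hX1, hX2]
    calc X * (actHom ℚ b.right X)⁻¹ = X * (castU b.left * (castU b.left)⁻¹)
          * (actHom ℚ b.right X)⁻¹ := by group
      _ = X * castU b.left * ((castU b.left)⁻¹ * (actHom ℚ b.right X)⁻¹) := by group
      _ = X * castU b.left * ((actHom ℚ b.right X)⁻¹ * (castU b.left)⁻¹) := by
        rw [uu_comm (u := (actHom ℚ b.right X)⁻¹) (v := (castU b.left)⁻¹) hZl1 hZl2]
      _ = _ := by group
  · rw [h.1 y hy, S.e_eq hy, ← map_inv, ← map_mul, ← map_mul]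
    congr 1
    rw [uu_comm hX1 hX2]; group

theorem Q_exists {w : MulAut A} (h : ∃ y ∈ S.E, ∃ θ, S.D θ ∧ w = MulAut.conj y * θ) :
    ∃ q, S.Q w q := by
  obtain ⟨y, hy, θ, hθ, rfl⟩ := h
  obtain ⟨X, -, -, hX⟩ := S.Q_D hθ
  exact ⟨_, S.Q_mul (S.Q_conj hy) hX⟩

theorem Q_conjB {w : MulAut A} {q : BB ℚ} (h : S.Q w q) (b : BB ℤ) :
    S.Q (MulAut.conj (S.j b) * w * (MulAut.conj (S.j b))⁻¹) (castB b * q * (castB b)⁻¹) := by
  have happ : ∀ x, (MulAut.conj (S.j b) * w * (MulAut.conj (S.j b))⁻¹) x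
      = S.j b * w ((S.j b)⁻¹ * x * S.j b) * (S.j b)⁻¹ := by
    intro x
    rw [← map_inv, MulAut.mul_apply, MulAut.mul_apply, MulAut.conj_apply, MulAut.conj_apply,
      inv_inv]
  refine ⟨by simp [h.1], fun b' => ?_, fun y hy => ?_⟩
  · have h1 := h.2.1 (b⁻¹ * b' * b)
    have e1 : (MulAut.conj (S.j b) * w * (MulAut.conj (S.j b))⁻¹) (S.j b') * (S.j b')⁻¹
        = S.j b * (w (S.j (b⁻¹ * b' * b)) * (S.j (b⁻¹ * b' * b))⁻¹) * (S.j b)⁻¹ := by
      rw [happ]
      have : S.j (b⁻¹ * b' * b) = (S.j b)⁻¹ * S.j b' * S.j b := by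
        rw [map_mul, map_mul, map_inv]
      rw [this]; group
    rw [e1]
    refine ⟨S.conj_E _ h1.1, ?_⟩
    rw [S.e_conj _ _ h1.1, h1.2, map_mul, map_mul, map_inv]
    group
  · rw [happ]
    have hy' : (S.j b)⁻¹ * y * S.j b ∈ S.E := by
      have := S.conj_E (S.j b)⁻¹ hy
      simpa using this
    have e2 : S.e ((S.j b)⁻¹ * y * S.j b) = (castB b)⁻¹ * S.e y * castB b := by
      have := S.e_conj b⁻¹ y hy
      simpa using this
    rw [S.e_conj _ _ (S.map_E w hy'), h.2.2 _ hy', e2]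
    group

open Classical in
/-- the new embedding -/
noncomputable def e' (w : MulAut A) : BB ℚ := if h : ∃ q, S.Q w q then h.choose else 1

theorem e'_eq {w : MulAut A} {q : BB ℚ} (h : S.Q w q) : S.e' w = q := by
  have h1 : ∃ q, S.Q w q := ⟨q, h⟩
  unfold e'
  rw [dif_pos h1]
  exact S.Q_uniq h1.choose_spec h

/-- The subgroup `E` of the automorphism group. -/
def E' : Subgroup (MulAut A) where
  carrier := {w | ∃ y ∈ S.E, ∃ θ, S.D θ ∧ w = MulAut.conj y * θ}
  mul_mem' := by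
    rintro _ _ ⟨y, hy, θ, hθ, rfl⟩ ⟨y', hy', θ', hθ', rfl⟩
    refine ⟨y * y', S.E.mul_mem hy hy', θ * θ', S.D_mul hθ hθ', ?_⟩
    rw [map_mul]
    calc MulAut.conj y * θ * (MulAut.conj y' * θ')
        = MulAut.conj y * (θ * MulAut.conj y') * θ' := by group
      _ = _ := by rw [S.D_conj_comm hθ hy']; group
  one_mem' := ⟨1, S.E.one_mem, 1, S.D_one, by rw [map_one, one_mul]⟩
  inv_mem' := by
    rintro _ ⟨y, hy, θ, hθ, rfl⟩
    refine ⟨y⁻¹, S.E.inv_mem hy, θ⁻¹, S.D_inv hθ, ?_⟩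
    rw [_root_.mul_inv_rev, ← map_inv, S.D_conj_comm (S.D_inv hθ) (S.E.inv_mem hy)]

theorem Q_of_mem {w : MulAut A} (h : w ∈ S.E') : S.Q w (S.e' w) := by
  obtain ⟨q, hq⟩ := S.Q_exists h
  rw [S.e'_eq hq]; exact hq

include S in
theorem next : Nonempty (Stage (n + 1) (MulAut A)) := by
  obtain ⟨φ, hφφ, hφ, hφg⟩ := lemma1 S.centreless S.z S.zinf S.mem_N
  have hφD : S.D φ := by
    refine ⟨fun y hy => ?_, fun a => ?_⟩
    · rcases hφg y with h | h
      · exact h.2
      · exfalso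
        have h1 : y * S.z * y⁻¹ = S.z := by
          rw [← S.M_comm S.z_mem_M hy]; group
        rw [h1] at h
        have h2 : S.z ^ (2 : ℤ) = 1 := by
          rw [zpow_two]
          nth_rewrite 2 [h.1]
          simp
        have := S.zinf 2 h2
        omega
    · rcases hφg a with h | h
      · rw [h.2, mul_inv_cancel]; exact S.M.one_mem
      · rw [h.2]; simpa using S.z_mem_M
  have hφE : φ ∈ S.E' := ⟨1, S.E.one_mem, φ, hφD, by rw [map_one, one_mul]⟩
  refine ⟨{
    j := MulAut.conj.comp S.j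
    rig := ?_
    cent := ?_
    E := S.E'
    mem_E := fun w => (S.EE_iff φ hφφ hφ w).symm
    e := S.e'
    e_right := fun w hw => (S.Q_of_mem hw).1
    e_mul := fun w hw w' hw' => S.e'_eq (S.Q_mul (S.Q_of_mem hw) (S.Q_of_mem hw'))
    e_inj := ?_
    jU_mem := ?_
    e_j := ?_
    e_conj := fun b w hw => S.e'_eq (S.Q_conjB (S.Q_of_mem hw) b)
    z := φ
    z_mem := hφE
    e_z := ?_
    mem_N := hφ }⟩
  · intro X _ f g h hx
    have h1 : f.comp MulAut.conj = g.comp MulAut.conj := S.rig X _ _ h hx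
    have h2 : ∀ a, f (MulAut.conj a) = g (MulAut.conj a) := fun a =>
      congrArg (fun f : A →* X => f a) h1
    ext θ
    have h3 : (g θ)⁻¹ * f θ = 1 := by
      apply hx
      intro b
      have h4 := congrArg f (mulAut_conj_comm θ (S.j b))
      have h5 := congrArg g (mulAut_conj_comm θ (S.j b))
      rw [← h2, ← h4] at h5
      rw [map_mul, map_mul, map_mul, map_mul, ← h2, map_inv, map_inv] at h5
      show (g θ)⁻¹ * f θ * f (MulAut.conj (S.j b)) = f (MulAut.conj (S.j b)) * ((g θ)⁻¹ * f θ)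
      calc (g θ)⁻¹ * f θ * f (MulAut.conj (S.j b))
          = (g θ)⁻¹ * (f θ * f (MulAut.conj (S.j b)) * (f θ)⁻¹) * f θ := by group
        _ = (g θ)⁻¹ * (g θ * f (MulAut.conj (S.j b)) * (g θ)⁻¹) * f θ := by rw [h5]
        _ = _ := by group
    calc f θ = g θ * ((g θ)⁻¹ * f θ) := by group
      _ = g θ := by rw [h3, mul_one]
  · intro θ h
    have h1 : ∀ b, θ (S.j b) = S.j b := by
      intro b
      have h2 : MulAut.conj (θ (S.j b)) = MulAut.conj (S.j b) := by
        rw [← mulAut_conj_comm]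
        have := h b
        show θ * MulAut.conj (S.j b) * θ⁻¹ = MulAut.conj (S.j b)
        have h3 : θ * MulAut.conj (S.j b) = MulAut.conj (S.j b) * θ := this
        rw [h3]; group
      exact conj_injective S.centreless h2
    have h3 : θ.toMonoidHom = MonoidHom.id A := by
      apply S.rig A
      · intro b
        exact h1 b
      · intro x hx
        apply S.cent
        intro b
        have := hx b
        have e1 : θ.toMonoidHom (S.j b) = S.j b := h1 b
        rwa [e1] at this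
    ext a
    exact congrArg (fun f : A →* A => f a) h3
  · intro w hw h
    apply S.Q_eq_one
    rw [← h]
    exact S.Q_of_mem hw
  · intro u
    exact ⟨S.j (inl u), S.jU_mem u, 1, S.D_one, by rw [mul_one]; rfl⟩
  · intro u
    have := S.Q_conj (S.jU_mem u)
    rw [S.e_j] at this
    exact S.e'_eq this
  · obtain ⟨X, hX1, hX2, hX⟩ := S.Q_D hφD
    have h1 := S.Q_mul hX hX
    rw [hφφ] at h1
    have h2 := S.Q_uniq h1 (S.Q_conj S.z_mem)
    rw [S.e_z, ← map_mul] at h2
    have h3 := inl_injective h2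
    have g1 := congrArg UU.x11 h3
    have g2 := congrArg UU.x12 h3
    have g3 := congrArg UU.x21 h3
    have g4 := congrArg UU.x22 h3
    simp only [UU.mul_x11, UU.mul_x12, UU.mul_x21, UU.mul_x22, hX1, hX2, Int.cast_zero, mul_zero,
      add_zero, sub_zero] at g1 g2 g3 g4
    rw [S.e'_eq hX]
    congr 1
    ext
    · exact hX1
    · exact hX2
    · show X.x11 = (1 / 2) ^ (n + 1)
      rw [pow_succ, ← g1]; ring
    · show X.x12 = 0
      linarith
    · show X.x21 = 0
      linarith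
    · show X.x22 = (1 / 2) ^ (n + 1)
      rw [pow_succ, ← g4]; ring

end Stage

end Pool.Agent.Helper886.Tower
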