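import Mathlib
import Pool.Agent.Helper886.Tower.Step4
import Pool.Agent.Helper886.Tower.AutG

set_option autoImplicit false

namespace Pool.Agent.Helper886.Tower

theorem cmm_X (n : ℕ) {A : Type} [Group A] (S : Stage n A) :
    S.X1 * S.X2 * S.X1⁻¹ * S.X2⁻¹ = S.z ^ ((2 : ℤ) ^ n * 3) := by
  rw [S.cmm_z S.X1_mem S.X2_mem, S.l1_X1, S.l2_X1, S.l1_X2, S.l2_X2]
  norm_num

theorem stage_dvd {n m : ℕ} {A A' : Type} [Group A] [Group A'] (S : Stage n A) (S' : Stage m A')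
    (f : A ≃* A') : (2 : ℤ) ^ m ∣ 2 ^ n := by
  have hz : NN S.z := (S.mem_N _).2 ⟨1, by simp⟩
  have hz' : NN S'.z := (S'.mem_N _).2 ⟨1, by simp⟩
  obtain ⟨k, hk⟩ := (S'.mem_N _).1 (hz.map f)
  obtain ⟨k', hk'⟩ := (S.mem_N _).1 (hz'.map f.symm)
  have hkk : k * k' = 1 := by
    have : S.z ^ (k * k' - 1) = 1 := by
      have h1 : S.z = S.z ^ (k * k') := by
        calc S.z = f.symm (f S.z) := by simp
          _ = S.z ^ (k * k') := by rw [hk, map_zpow, hk', ← zpow_mul, mul_comm]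
      rw [zpow_sub, ← h1]; simp
    have := S.zinf _ this
    omega
  have hX1 : f S.X1 ∈ S'.E := by
    rw [S'.mem_E]; exact ((S.mem_E _).1 S.X1_mem).map f
  have hX2 : f S.X2 ∈ S'.E := by
    rw [S'.mem_E]; exact ((S.mem_E _).1 S.X2_mem).map f
  have h1 := congrArg f (cmm_X n S)
  have h2 := S'.cmm_z hX1 hX2
  rw [map_mul, map_mul, map_mul, map_inv, map_inv, h2, map_zpow, hk, ← zpow_mul] at h1
  obtain ⟨r, hr⟩ : ∃ r, r = S'.l1 (f S.X1) * S'.l2 (f S.X2) - S'.l2 (f S.X1) * S'.l1 (f S.X2) :=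
    ⟨_, rfl⟩
  rw [← hr] at h1
  have h3 : S'.z ^ ((2 : ℤ) ^ m * (3 * r) - k * (2 ^ n * 3)) = 1 := by
    rw [zpow_sub, h1, mul_inv_cancel]
  have h4 := S'.zinf _ h3
  have h5 : (2 : ℤ) ^ n = 2 ^ m * (r * k') := by
    have h6 : k * (2 : ℤ) ^ n = 2 ^ m * r := by linarith
    calc (2 : ℤ) ^ n = (k * k') * 2 ^ n := by rw [hkk, one_mul]
      _ = k' * (k * 2 ^ n) := by ring
      _ = 2 ^ m * (r * k') := by rw [h6]; ring
  exact ⟨_, h5⟩

theorem stage_unique {n m : ℕ} {A A' : Type} [Group A] [Group A'] (S : Stage n A)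
    (S' : Stage m A') (f : A ≃* A') : n = m := by
  have h1 := stage_dvd S S' f
  have h2 := stage_dvd S' S f.symm
  have h1' : (2 : ℕ) ^ m ∣ 2 ^ n := by exact_mod_cast h1
  have h2' : (2 : ℕ) ^ n ∣ 2 ^ m := by exact_mod_cast h2
  rw [Nat.pow_dvd_pow_iff_le_right (by norm_num)] at h1' h2'
  omega

/-- The automorphism tower of `GG`. -/
noncomputable def Tow : ℕ → (Σ A : Type, Group A)
  | 0 => ⟨GG, inferInstance⟩
  | n + 1 => letI := (Tow n).2; ⟨MulAut (Tow n).1, inferInstance⟩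

noncomputable instance (n : ℕ) : Group (Tow n).1 := (Tow n).2

theorem tow_stage (n : ℕ) : ∃ (C : Type) (_ : Group C), Nonempty (Stage n C) ∧
    Nonempty ((Tow (n + 1)).1 ≃* C) := by
  induction n with
  | zero =>
    exact ⟨BB ℤ, inferInstance, ⟨stageBase⟩, ⟨(autG.symm : MulAut GG ≃* BB ℤ)⟩⟩
  | succ n ih =>
    obtain ⟨C, iC, ⟨S⟩, ⟨f⟩⟩ := ih
    exact ⟨MulAut C, inferInstance, S.next, ⟨(MulAut.congr f : MulAut (Tow (n + 1)).1 ≃* MulAut C)⟩⟩

theorem not_iso {n m : ℕ} (h : m < n) : ¬ Nonempty ((Tow n).1 ≃* (Tow m).1) := by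
  rintro ⟨f⟩
  obtain ⟨n, rfl⟩ : ∃ n', n = n' + 1 := ⟨n - 1, by omega⟩
  obtain ⟨C, iC, ⟨S⟩, ⟨g⟩⟩ := tow_stage n
  match m with
  | 0 =>
    -- the centre of `GG` is not trivial
    let F : GG ≃* C := f.symm.trans g
    have h1 : F ⟨0, 0, 0, 1, 0⟩ = 1 := by
      apply S.centreless
      intro b
      obtain ⟨Y, rfl⟩ := F.surjective b
      rw [← map_mul, ← map_mul]
      congr 1
      ext <;> simp <;> ring
    have h2 : (⟨0, 0, 0, 1, 0⟩ : GG) = 1 := by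
      apply F.injective
      rw [h1, map_one]
    have h3 := congrArg GG.v1 h2
    simp at h3
  | m + 1 =>
    obtain ⟨C', iC', ⟨S'⟩, ⟨g'⟩⟩ := tow_stage m
    have := stage_unique S S' ((g.symm.trans f).trans g')
    omega

end Pool.Agent.Helper886.Tower
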